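import Pool.Agent.H423.OA.Core

/-! The dichotomy for orbits avoiding a point modulo primes. -/

set_option autoImplicit false
set_option linter.all false

namespace Pool.Agent.H423.OA

open MvPolynomial NumberField IsDedekindDomain Filter Topology
open Pool.Agent.W401.Cheb

section main

variable {K : Type} [Field K] [NumberField K] {ι : Type} [Fintype ι]

/-- `F` defines a morphism of projective space of degree `d`: forms of degree `d` without common
zero over an algebraic closure -/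
structure IsMor (F : ι → MvPolynomial ι K) (d : ℕ) : Prop where
  hom : ∀ i, (F i).IsHomogeneous d
  noZero : ∀ x : ι → AlgebraicClosure K, (∀ i, aeval x (F i) = 0) → x = 0

/-- the point `y` is the `m`-th image of the point `x` -/
def Hits (F : ι → MvPolynomial ι K) (m : ℕ) (x y : ι → K) : Prop := Par ((ev F)^[m] x) y

/-- the primes modulo which the forward orbit of `δ` avoids `γ` -/
def SS (F : ι → MvPolynomial ι K) (δ γ : ι → K) : Set (HeightOneSpectrum (𝓞 K)) :=
  {v | ∀ m : ℕ, ¬ Cg v.asIdeal ((ev F)^[m] δ) γ}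

/-- the morphism has good reduction at `v`: for some choice of the coordinates with coefficients in
`𝓞 K`, its reduction has no zero in any extension field of the residue field -/
def GoodRed (F : ι → MvPolynomial ι K) (v : HeightOneSpectrum (𝓞 K)) : Prop :=
  ∃ G : ι → MvPolynomial ι (𝓞 K), Model F G ∧ (∀ (k : Type) [Field k] (φ : 𝓞 K →+* k),
    RingHom.ker φ = v.asIdeal → ∀ x : ι → k, (∀ i, eval₂ φ x (G i) = 0) → x = 0)

/-- `γ` is periodic -/
def Per (F : ι → MvPolynomial ι K) (γ : ι → K) : Prop := ∃ m, 1 ≤ m ∧ Hits F m γ γ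

/-- `γ` is preperiodic -/
def PrePer (F : ι → MvPolynomial ι K) (γ : ι → K) : Prop :=
  ∃ k m, 1 ≤ m ∧ Par ((ev F)^[k + m] γ) ((ev F)^[k] γ)

/-- `γ` is periodic modulo `v` -/
def PerMod (F : ι → MvPolynomial ι K) (v : HeightOneSpectrum (𝓞 K)) (γ : ι → K) : Prop :=
  ∃ m, 1 ≤ m ∧ Cg v.asIdeal ((ev F)^[m] γ) γ

theorem GoodRed.good {F : ι → MvPolynomial ι K} {G : ι → MvPolynomial ι (𝓞 K)}
    {v : HeightOneSpectrum (𝓞 K)}
    (h : ∀ (k : Type) [Field k] (φ : 𝓞 K →+* k),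
      RingHom.ker φ = v.asIdeal → ∀ x : ι → k, (∀ i, eval₂ φ x (G i) = 0) → x = 0)
    (Q : Ideal (𝓞 (AlgebraicClosure K))) (hQ : Q.IsMaximal)
    (hQv : Q.comap (algebraMap (𝓞 K) (𝓞 (AlgebraicClosure K))) = v.asIdeal) : Good G Q := by
  letI := Ideal.Quotient.field Q
  intro b hb
  let φ : 𝓞 K →+* (𝓞 (AlgebraicClosure K) ⧸ Q) :=
    (Ideal.Quotient.mk Q).comp (algebraMap (𝓞 K) (𝓞 (AlgebraicClosure K)))
  have hker : RingHom.ker φ = v.asIdeal := by
    rw [← hQv]
    ext x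
    rw [RingHom.mem_ker, Ideal.mem_comap]
    exact Ideal.Quotient.eq_zero_iff_mem
  have h1 := h _ φ hker (fun i => Ideal.Quotient.mk Q (b i)) (by
    intro i
    have h2 : Ideal.Quotient.mk Q (ev G b i) = 0 := Ideal.Quotient.eq_zero_iff_mem.mpr (hb i)
    rw [← h2]
    simp only [ev, aeval_def]
    exact (MvPolynomial.eval₂_comp_left (Ideal.Quotient.mk Q)
      (algebraMap (𝓞 K) (𝓞 (AlgebraicClosure K))) b (G i)).symm)
  intro i
  exact Ideal.Quotient.eq_zero_iff_mem.mp (congrFun h1 i)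

/-- good reduction outside finitely many primes -/
theorem finite_bad {F : ι → MvPolynomial ι K} {d : ℕ} (hF : IsMor F d) :
    {v : HeightOneSpectrum (𝓞 K) | ¬ GoodRed F v}.Finite := by
  classical
  obtain ⟨G, hM, hG⟩ := exists_model F d hF.hom
  obtain ⟨c, hc, hcF⟩ := hM
  have hinj := FaithfulSMul.algebraMap_injective (𝓞 K) K
  -- Nullstellensatz over `K`
  have h1 : ∀ i, ∃ (M : ℕ) (a : ι → MvPolynomial ι K), ∑ j, a j * F j = X i ^ M := by
    intro i
    have h := vanishingIdeal_zeroLocus_eq_radical (k := K) (K := AlgebraicClosure K)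
      (Ideal.span (Set.range F))
    have hx : (X i : MvPolynomial ι K) ∈
        vanishingIdeal K (zeroLocus (AlgebraicClosure K) (Ideal.span (Set.range F))) := by
      intro x hx
      have hx0 : x = 0 := hF.noZero x (fun j => hx (F j) (Ideal.subset_span ⟨j, rfl⟩))
      rw [hx0]; simp
    rw [h] at hx
    obtain ⟨M, hM⟩ := hx
    obtain ⟨a, ha⟩ := (Ideal.mem_span_range_iff_exists_fun).mp hM
    exact ⟨M, a, ha⟩
  choose M a ha using h1
  choose e he a' ha' using fun p : ι × ι => exists_model_one (a p.1 p.2)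
  -- identities over `𝓞 K`
  have hid : ∀ i, ∃ b : 𝓞 K, b ≠ 0 ∧ ∃ r : ι → MvPolynomial ι (𝓞 K),
      C b * X i ^ M i = ∑ j, r j * G j := by
    intro i
    obtain ⟨⟨n, s⟩, hns⟩ := IsLocalization.surj (nonZeroDivisors (𝓞 K)) c
    -- `c s = n`
    have hn0 : n ≠ 0 := by
      intro h
      rw [h, map_zero] at hns
      rcases mul_eq_zero.mp hns with h | h
      · exact hc h
      · exact nonZeroDivisors.ne_zero s.2 ((map_eq_zero_iff _ hinj).mp h)
    refine ⟨n * ∏ j, e (i, j), mul_ne_zero hn0 (Finset.prod_ne_zero_iff.mpr (fun j _ => he (i, j))),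
      fun j => C (s : 𝓞 K) * C (∏ k ∈ Finset.univ.erase j, e (i, k)) * a' (i, j), ?_⟩
    apply MvPolynomial.map_injective (algebraMap (𝓞 K) K) hinj
    rw [map_mul, map_C, map_pow, map_X, map_sum]
    rw [map_mul, ← hns, ← ha i, Finset.mul_sum]
    apply Finset.sum_congr rfl
    intro j _
    have e1 : MvPolynomial.map (algebraMap (𝓞 K) K)
        (C (s : 𝓞 K) * C (∏ k ∈ Finset.univ.erase j, e (i, k)) * a' (i, j) * G j) =
        C (algebraMap (𝓞 K) K s) * C (algebraMap (𝓞 K) K (∏ k ∈ Finset.univ.erase j, e (i, k))) *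
          (C (algebraMap (𝓞 K) K (e (i, j))) * a i j) * (C c * F j) := by
      rw [map_mul, map_mul, map_mul, map_C, map_C, ha' (i, j), hcF j]
    rw [e1, ← Finset.mul_prod_erase _ _ (Finset.mem_univ j)]
    simp only [map_mul]
    ring
  choose b hb r hr using hid
  have hfin : {v : HeightOneSpectrum (𝓞 K) | ∏ i, b i ∈ v.asIdeal}.Finite := by
    have hne : Ideal.span {∏ i, b i} ≠ ⊥ := by
      rw [Ne, Ideal.span_singleton_eq_bot]
      exact Finset.prod_ne_zero_iff.mpr (fun i _ => hb i)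
    refine (Ideal.finite_factors hne).subset ?_
    intro v hv
    simp only [Set.mem_ofPred_eq] at hv ⊢
    rwa [Ideal.dvd_span_singleton]
  refine hfin.subset ?_
  intro v hv
  simp only [Set.mem_ofPred_eq] at hv ⊢
  by_contra hcon
  apply hv
  refine ⟨G, ⟨c, hc, hcF⟩, ?_⟩
  intro k _ φ hφ x hx
  funext i
  have h1 := congrArg (eval₂ φ x) (hr i)
  rw [eval₂_mul, eval₂_C, eval₂_pow, eval₂_X, eval₂_sum] at h1
  have h2 : ∑ j, eval₂ φ x (r i j * G j) = 0 := by
    apply Finset.sum_eq_zero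
    intro j _
    rw [eval₂_mul, hx j, mul_zero]
  rw [h2] at h1
  rcases mul_eq_zero.mp h1 with h | h
  · exfalso
    apply hcon
    have h3 : b i ∈ v.asIdeal := by rw [← hφ]; exact h
    rw [← Finset.mul_prod_erase _ _ (Finset.mem_univ i)]
    exact v.asIdeal.mul_mem_right _ h3
  · exact eq_zero_of_pow_eq_zero h

theorem IsMor.noZero' {F : ι → MvPolynomial ι K} {d : ℕ} (hF : IsMor F d) :
    ∀ x : ι → AlgebraicClosure K, ev F x = 0 → x = 0 :=
  fun x hx => hF.noZero x (fun i => congrFun hx i)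

theorem IsMor.noZeroK {F : ι → MvPolynomial ι K} {d : ℕ} (hF : IsMor F d) :
    ∀ x : ι → K, ev F x = 0 → x = 0 := by
  intro x hx
  by_contra hne
  apply upK_ne_zero hne
  apply hF.noZero'
  rw [← upK_ev, hx]
  funext i; simp [upK]

/-- two different points are congruent modulo finitely many primes only -/
theorem finite_cg {x y : ι → K} (hx : x ≠ 0) (hy : y ≠ 0) (h : ¬ Par x y) :
    {v : HeightOneSpectrum (𝓞 K) | Cg v.asIdeal x y}.Finite := by
  have h1 := (aa_not_cg (K := K) (upK x) (upK y) (upK_ne_zero hx) (upK_ne_zero hy)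
    (fun hp => h (par_upK hp))).finite
  refine h1.subset ?_
  intro v hv
  obtain ⟨σ, Q, hQ, hQv, -⟩ := exists_isFrob v
  exact ⟨Q, hQ, hQv, fun hc => hc (cg_up hQv hv)⟩

/-- the conclusion: one set of primes of positive density for all starting points -/
def Uniform (F : ι → MvPolynomial ι K) (γ : ι → K) : Prop :=
  ∃ P : Set (HeightOneSpectrum (𝓞 K)), PosDens P ∧ ∀ δ : ι → K, δ ≠ 0 →
    (∀ m, ¬ Hits F m δ γ) → (P \ SS F δ γ).Finite

/-- nonperiodic targets: a Galois element suffices -/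
theorem uniform_of_galois {F : ι → MvPolynomial ι K} {d : ℕ} (hd : 1 ≤ d) (hF : IsMor F d)
    {γ : ι → K} (hγ : γ ≠ 0) {n : ℕ} (h : (CC F n 0 {γ} ∅).Nonempty) : Uniform F γ := by
  obtain ⟨P, hP, hPv⟩ := core hd hF.hom hF.noZero' n 0 {γ} ∅ (Set.finite_singleton γ)
    (by rintro z rfl; exact hγ) (by simp) h
  refine ⟨P, hP, fun δ hδ hm => ?_⟩
  have hfin : (⋃ m ∈ Finset.range n, {v : HeightOneSpectrum (𝓞 K) |
      Cg v.asIdeal ((ev F)^[m] δ) γ}).Finite := by
    apply Set.Finite.biUnion (Finset.finite_toSet _)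
    intro m _
    exact finite_cg (it_ne_zero hF.noZeroK hδ m) hγ (hm m)
  refine hfin.subset ?_
  rintro v ⟨hv, hvS⟩
  simp only [SS, Set.mem_ofPred_eq] at hvS
  push Not at hvS
  obtain ⟨m, hcg⟩ := hvS
  rw [Set.mem_iUnion₂]
  refine ⟨m, ?_, hcg⟩
  by_contra hmn
  rw [Finset.mem_range, not_lt] at hmn
  have h1 := hPv v hv ((ev F)^[m - n] δ) (it_ne_zero hF.noZeroK hδ _) γ rfl (by
    rw [add_zero, ← Function.iterate_add_apply, Nat.add_sub_cancel' hmn]
    exact hcg)
  obtain ⟨z', hz', -⟩ := h1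
  exact hz'

/-- a Galois element from a good prime modulo which `γ` is not periodic -/
theorem galois_of_prime {F : ι → MvPolynomial ι K} {d : ℕ} (hF : IsMor F d)
    {γ : ι → K} (hγ : γ ≠ 0) (v : HeightOneSpectrum (𝓞 K)) (hv : GoodRed F v)
    (hper : ¬ PerMod F v γ) : ∃ n, (CC F n 0 {γ} ∅).Nonempty := by
  obtain ⟨G, hM, hgood⟩ := hv
  have hGh : ∀ i, (G i).IsHomogeneous d := by
    obtain ⟨c, hc, hcF⟩ := hM
    intro i
    apply IsHomogeneous.of_map (FaithfulSMul.algebraMap_injective (𝓞 K) K)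
    rw [hcF i]
    have := (isHomogeneous_C ι c).mul (hF.hom i)
    rwa [zero_add] at this
  apply exists_galois hF.hom hGh hF.noZero' hM 0 {γ} ∅ v
  intro Q hQ hQv
  haveI := hQ.isPrime
  haveI := hQ
  have hgQ := GoodRed.good (F := F) hgood Q hQ hQv
  refine ⟨hgQ, ?_⟩
  intro w hw hz _ t ht hcg
  obtain ⟨z, hz, hwz⟩ := hz
  rw [Set.mem_singleton_iff] at hz
  subst hz
  apply hper
  refine ⟨t, ht, ?_⟩
  have hz' := upK_ne_zero hγ
  -- transfer from `w` to `z`
  have h1 : Par ((ev F)^[t] w) ((ev F)^[t] (upK z)) := Par.it hF.hom hF.noZero' hw hz' hwz t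
  have h2 := Cg.par_left (it_ne_zero hF.noZero' hw t) h1 hcg
  have h3 := (Cg.par_left hw hwz h2.symm).symm
  rw [← upK_it] at h3
  exact cg_down hQv (it_ne_zero hF.noZeroK hγ t) hγ h3

/-- periodic targets -/
theorem uniform_of_per {F : ι → MvPolynomial ι K} {d : ℕ} (hd : 1 ≤ d) (hF : IsMor F d)
    {γ : ι → K} (hγ : γ ≠ 0) (hper : Per F γ) : Uniform F γ := by
  classical
  obtain ⟨p, hp, hpγ⟩ := hper
  -- the cycle
  let Z : Set (ι → K) := (fun i => (ev F)^[i] γ) '' (Set.Iio p)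
  have hZfin : Z.Finite := (Set.finite_Iio p).image _
  have hZ0 : ∀ z ∈ Z, z ≠ 0 := by
    rintro z ⟨i, -, rfl⟩
    exact it_ne_zero hF.noZeroK hγ i
  have hγZ : γ ∈ Z := ⟨0, Nat.lt_of_lt_of_le Nat.zero_lt_one hp, rfl⟩
  -- images of points of the cycle
  have hnext : ∀ z ∈ Z, ∃ z' ∈ Z, Par (ev F z) z' := by
    rintro z ⟨i, hi, rfl⟩
    rw [Set.mem_Iio] at hi
    by_cases h : i + 1 < p
    · refine ⟨(ev F)^[i + 1] γ, ⟨i + 1, h, rfl⟩, ?_⟩
      rw [Function.iterate_succ_apply']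
      exact Par.refl _
    · have e : i + 1 = p := by omega
      refine ⟨γ, hγZ, ?_⟩
      have : ev F ((ev F)^[i] γ) = (ev F)^[p] γ := by
        rw [← e, Function.iterate_succ_apply']
      rw [this]
      exact hpγ
  -- from each point of the cycle one reaches `γ`
  have hreach : ∀ z ∈ Z, ∃ k, Par ((ev F)^[k] z) γ := by
    rintro z ⟨i, hi, rfl⟩
    rw [Set.mem_Iio] at hi
    refine ⟨p - i, ?_⟩
    rw [← Function.iterate_add_apply, Nat.sub_add_cancel hi.le]
    exact hpγ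
  obtain ⟨G, hM, hG⟩ := exists_model F d hF.hom
  -- a good prime at which the points of `F⁻¹(Z) \ Z` and `Z` are not congruent
  have hreps := fun z : Z => fib_reps hd hF.hom hF.noZero' (upK (z : ι → K))
    (upK_ne_zero (hZ0 z z.2))
  choose τ hτ y hy hall using hreps
  haveI := hZfin.to_subtype
  haveI : ∀ z, Finite (τ z) := fun z => @Fintype.finite _ (hτ z)
  have hAA : AA (K := K) (fun Q => ∀ (z : Z) (s : τ z) (z' : Z),
      ¬ Par (up (y z s)) (upK (z' : ι → K)) → ¬ Cg Q (up (y z s)) (upK (z' : ι → K))) := by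
    apply AA.all; intro z
    apply AA.all; intro s
    apply AA.all; intro z'
    by_cases h : Par (up (y z s)) (upK (z' : ι → K))
    · exact AA.of_forall (fun Q _ h' => absurd h h')
    · exact (aa_not_cg _ _ (up_ne_zero (hy z s).1) (upK_ne_zero (hZ0 z' z'.2)) h).mono
        (fun Q _ h' _ => h')
  obtain ⟨v, hv⟩ := (hAA.and (aa_good (K := K) (model_no_zero hF.noZero' hM))).exists
  have hgal : ∃ n, (CC F n 1 Z Z).Nonempty := by
    apply exists_galois hF.hom hG hF.noZero' hM 1 Z Z v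
    intro Q hQ hQv
    haveI := hQ
    haveI := hQ.isPrime
    obtain ⟨hd1, hgQ⟩ := hv Q hQ hQv
    refine ⟨hgQ, ?_⟩
    intro w hw hz hwZ t ht hcg
    obtain ⟨z, hz, hwz⟩ := hz
    -- the image of `w` is `z`, hence `F^t w` is in the cycle
    have hcyc : ∀ t, 1 ≤ t → ∃ z' ∈ Z, Par ((ev F)^[t] w) (upK z') := by
      intro t ht
      induction t, ht using Nat.le_induction with
      | base => exact ⟨z, hz, hwz⟩
      | succ t _ ih =>
        obtain ⟨z', hz', h⟩ := ih
        obtain ⟨z'', hz'', h'⟩ := hnext z' hz'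
        refine ⟨z'', hz'', ?_⟩
        rw [Function.iterate_succ_apply']
        have h1 := Par.ev hF.hom (it_ne_zero hF.noZero' hw t) (upK_ne_zero (hZ0 z' hz')) h
        have h2 : Par (ev F (upK z')) (upK z'') := by
          rw [← upK_ev]; exact Par.upK h'
        exact Par.trans (ev_ne_zero hF.noZero' (upK_ne_zero (hZ0 z' hz'))) h1 h2
    obtain ⟨z', hz', hwz'⟩ := hcyc t ht
    have h1 := Cg.par_left (it_ne_zero hF.noZero' hw t) hwz' hcg
    obtain ⟨s, hs⟩ := hall ⟨z, hz⟩ w hw hwz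
    have h2 := Cg.par_left hw hs h1.symm
    refine hd1 ⟨z, hz⟩ s ⟨z', hz'⟩ ?_ h2
    intro h3
    exact hwZ z' hz' (Par.trans (up_ne_zero (hy _ s).1) hs h3)
  obtain ⟨n, hn⟩ := hgal
  obtain ⟨P, hP, hPv⟩ := core hd hF.hom hF.noZero' n 1 Z Z hZfin hZ0 hZ0 hn
  refine ⟨P, hP, fun δ hδ hm => ?_⟩
  have hfin : (⋃ m ∈ Finset.range (n + 1), ⋃ z ∈ hZfin.toFinset, {v : HeightOneSpectrum (𝓞 K) |
      Cg v.asIdeal ((ev F)^[m] δ) z}).Finite := by
    apply Set.Finite.biUnion (Finset.finite_toSet _)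
    intro m _
    apply Set.Finite.biUnion (Finset.finite_toSet _)
    intro z hz
    have hz' : z ∈ Z := hZfin.mem_toFinset.mp hz
    refine finite_cg (it_ne_zero hF.noZeroK hδ m) (hZ0 z hz') ?_
    intro hpar
    obtain ⟨k, hk⟩ := hreach z hz'
    apply hm (k + m)
    unfold Hits
    rw [Function.iterate_add_apply]
    have h1 := Par.it hF.hom hF.noZeroK (it_ne_zero hF.noZeroK hδ m) (hZ0 z hz') hpar k
    exact Par.trans (it_ne_zero hF.noZeroK (hZ0 z hz') k) h1 hk
  refine hfin.subset ?_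
  rintro v ⟨hv, hvS⟩
  simp only [SS, Set.mem_ofPred_eq] at hvS
  push Not at hvS
  obtain ⟨m1, hcg1⟩ := hvS
  have hex : ∃ m, ∃ z ∈ Z, Cg v.asIdeal ((ev F)^[m] δ) z := ⟨m1, γ, hγZ, hcg1⟩
  let m := Nat.find hex
  obtain ⟨z, hz, hcg⟩ := Nat.find_spec hex
  rw [Set.mem_iUnion₂]
  refine ⟨m, ?_, ?_⟩
  · by_contra hmn
    rw [Finset.mem_range, not_lt] at hmn
    obtain ⟨z', hz', h1⟩ := hPv v hv ((ev F)^[m - (n + 1)] δ) (it_ne_zero hF.noZeroK hδ _) z hz (by
      rw [← Function.iterate_add_apply, Nat.add_sub_cancel' hmn]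
      exact hcg)
    rw [← Function.iterate_add_apply] at h1
    have h2 : n + (m - (n + 1)) = m - 1 := by omega
    rw [h2] at h1
    exact Nat.find_min hex (m := m - 1) (by omega) ⟨z', hz', h1⟩
  · rw [Set.mem_iUnion₂]
    exact ⟨z, hZfin.mem_toFinset.mpr hz, hcg⟩

theorem Uniform.pos {F : ι → MvPolynomial ι K} {γ : ι → K} (h : Uniform F γ) :
    ∀ δ : ι → K, δ ≠ 0 → (∀ m, ¬ Hits F m δ γ) → PosDens (SS F δ γ) := by
  obtain ⟨P, hP, h⟩ := h
  intro δ hδ hm
  exact hP.of_diff (h δ hδ hm)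

/-- the orbit of `F γ` meets `γ` if and only if `γ` is periodic -/
theorem prime_of_infinite {F : ι → MvPolynomial ι K} {d : ℕ} (hF : IsMor F d)
    {γ : ι → K} (hγ : γ ≠ 0) (hper : ¬ Per F γ) (h : (SS F (ev F γ) γ).Infinite) :
    ∃ v, GoodRed F v ∧ ¬ PerMod F v γ := by
  obtain ⟨v, hv, hvg⟩ := h.exists_notMem_finite (finite_bad hF)
  refine ⟨v, by simpa using hvg, ?_⟩
  rintro ⟨m, hm, hcg⟩
  have h1 := hv (m - 1)
  rw [← Function.iterate_succ_apply, Nat.succ_eq_add_one, Nat.sub_add_cancel hm] at h1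
  exact h1 hcg

/-- strictly preperiodic points are not periodic modulo almost all primes -/
theorem prime_of_preper {F : ι → MvPolynomial ι K} {d : ℕ} (hF : IsMor F d)
    {γ : ι → K} (hγ : γ ≠ 0) (hper : ¬ Per F γ) (h : PrePer F γ) :
    ∃ v, GoodRed F v ∧ ¬ PerMod F v γ := by
  obtain ⟨k, p, hp, hkp⟩ := h
  -- every `F^m γ`, `m ≥ 1`, is equal to one with `1 ≤ m ≤ k + p`
  have hred : ∀ m, 1 ≤ m → ∃ m', 1 ≤ m' ∧ m' ≤ k + p ∧
      Par ((ev F)^[m] γ) ((ev F)^[m'] γ) := by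
    intro m
    induction m using Nat.strong_induction_on with
    | _ m ih =>
      intro hm
      by_cases hle : m ≤ k + p
      · exact ⟨m, hm, hle, Par.refl _⟩
      · have h1 := Par.it hF.hom hF.noZeroK (it_ne_zero hF.noZeroK hγ (k + p))
          (it_ne_zero hF.noZeroK hγ k) hkp (m - (k + p))
        rw [← Function.iterate_add_apply, ← Function.iterate_add_apply,
          Nat.sub_add_cancel (by omega : k + p ≤ m)] at h1
        obtain ⟨m', hm1, hm2, h2⟩ := ih (m - (k + p) + k) (by omega) (by omega)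
        exact ⟨m', hm1, hm2, Par.trans (it_ne_zero hF.noZeroK hγ _) h1 h2⟩
  have hfin : ({v : HeightOneSpectrum (𝓞 K) | ¬ GoodRed F v} ∪ ⋃ m ∈ Finset.Icc 1 (k + p),
      {v : HeightOneSpectrum (𝓞 K) | Cg v.asIdeal ((ev F)^[m] γ) γ}).Finite := by
    refine (finite_bad hF).union (Set.Finite.biUnion (Finset.finite_toSet _) ?_)
    intro m hm
    rw [Finset.mem_coe, Finset.mem_Icc] at hm
    exact finite_cg (it_ne_zero hF.noZeroK hγ m) hγ (fun hp => hper ⟨m, hm.1, hp⟩)
  obtain ⟨v, -, hv⟩ := (infinite_primes (K := K)).exists_notMem_finite hfin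
  rw [Set.mem_union, not_or, Set.mem_iUnion₂] at hv
  refine ⟨v, by simpa using hv.1, ?_⟩
  rintro ⟨m, hm, hcg⟩
  obtain ⟨m', hm1, hm2, hpar⟩ := hred m hm
  exact hv.2 ⟨m', Finset.mem_Icc.mpr ⟨hm1, hm2⟩, Cg.par_left (it_ne_zero hF.noZeroK hγ m) hpar hcg⟩

/-- **Main theorem.** -/
theorem main {F : ι → MvPolynomial ι K} {d : ℕ} (hd : 1 ≤ d) (hF : IsMor F d)
    {γ : ι → K} (hγ : γ ≠ 0) :
    [Uniform F γ,
      ∀ δ : ι → K, δ ≠ 0 → (∀ m, ¬ Hits F m δ γ) → PosDens (SS F δ γ),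
      ∀ δ : ι → K, δ ≠ 0 → (∀ m, ¬ Hits F m δ γ) → (SS F δ γ).Infinite,
      ¬ Per F γ → ∃ v, GoodRed F v ∧ ¬ PerMod F v γ,
      ¬ Per F γ → ∃ n, (CC F n 0 {γ} ∅).Nonempty].TFAE ∧
    (PrePer F γ → Uniform F γ) := by
  have h12 : Uniform F γ →
      ∀ δ : ι → K, δ ≠ 0 → (∀ m, ¬ Hits F m δ γ) → PosDens (SS F δ γ) := Uniform.pos
  have h45 : (¬ Per F γ → ∃ v, GoodRed F v ∧ ¬ PerMod F v γ) →
      (¬ Per F γ → ∃ n, (CC F n 0 {γ} ∅).Nonempty) := by
    intro h hper
    obtain ⟨v, hv, hv'⟩ := h hper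
    exact galois_of_prime hF hγ v hv hv'
  have h51 : (¬ Per F γ → ∃ n, (CC F n 0 {γ} ∅).Nonempty) → Uniform F γ := by
    intro h
    by_cases hper : Per F γ
    · exact uniform_of_per hd hF hγ hper
    · obtain ⟨n, hn⟩ := h hper
      exact uniform_of_galois hd hF hγ hn
  constructor
  · tfae_have 1 → 2 := h12
    tfae_have 2 → 3 := fun h δ hδ hm => (h δ hδ hm).infinite
    tfae_have 3 → 4 := by
      intro h hper
      apply prime_of_infinite hF hγ hper
      apply h (ev F γ) (ev_ne_zero hF.noZeroK hγ)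
      intro m hm
      apply hper
      refine ⟨m + 1, by omega, ?_⟩
      unfold Hits at hm ⊢
      rwa [Function.iterate_succ_apply]
    tfae_have 4 → 5 := h45
    tfae_have 5 → 1 := h51
    tfae_finish
  · intro h
    exact h51 (h45 (fun hper => prime_of_preper hF hγ hper h))

end main

end Pool.Agent.H423.OA
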