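import Pool.Agent.H423.OA.Dens

/-! The set of primes attached to a Galois element without fixed points in a fibre. -/

set_option autoImplicit false
set_option linter.all false

namespace Pool.Agent.H423.OA

open MvPolynomial NumberField IsDedekindDomain Filter Topology
open Pool.Agent.W401.Cheb

section model

variable {K : Type} [Field K] [NumberField K] {ι : Type} [Fintype ι]

theorem exists_model_one (p : MvPolynomial ι K) : ∃ c : 𝓞 K, c ≠ 0 ∧ ∃ p' : MvPolynomial ι (𝓞 K),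
    MvPolynomial.map (algebraMap (𝓞 K) K) p' = C (algebraMap (𝓞 K) K c) * p := by
  induction p using MvPolynomial.induction_on with
  | C a =>
    obtain ⟨⟨n, d⟩, hnd⟩ := IsLocalization.surj (nonZeroDivisors (𝓞 K)) a
    refine ⟨d, nonZeroDivisors.ne_zero d.2, C n, ?_⟩
    rw [map_C, ← map_mul, mul_comm, ← hnd]
  | add p q hp hq =>
    obtain ⟨c, hc, p', hp'⟩ := hp
    obtain ⟨e, he, q', hq'⟩ := hq
    refine ⟨c * e, mul_ne_zero hc he, C e * p' + C c * q', ?_⟩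
    rw [map_add, map_mul, map_mul, map_C, map_C, hp', hq', map_mul, map_mul]
    ring
  | mul_X p i hp =>
    obtain ⟨c, hc, p', hp'⟩ := hp
    refine ⟨c, hc, p' * X i, ?_⟩
    rw [map_mul, hp', map_X]
    ring

theorem exists_model (F : ι → MvPolynomial ι K) (d : ℕ) (hF : ∀ i, (F i).IsHomogeneous d) :
    ∃ G : ι → MvPolynomial ι (𝓞 K), Model F G ∧ ∀ i, (G i).IsHomogeneous d := by
  classical
  choose c hc p hp using fun i => exists_model_one (F i)
  have hinj := FaithfulSMul.algebraMap_injective (𝓞 K) K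
  have hmap : ∀ i, MvPolynomial.map (algebraMap (𝓞 K) K)
      (C (∏ k ∈ Finset.univ.erase i, c k) * p i) =
      C (algebraMap (𝓞 K) K (∏ k, c k)) * F i := by
    intro i
    rw [map_mul, map_C, hp, ← mul_assoc, ← map_mul, ← map_mul, mul_comm _ (c i),
      Finset.mul_prod_erase _ _ (Finset.mem_univ i)]
  refine ⟨fun i => C (∏ k ∈ Finset.univ.erase i, c k) * p i, ⟨algebraMap (𝓞 K) K (∏ k, c k), ?_, hmap⟩,
    fun i => ?_⟩
  · rw [Ne, map_eq_zero_iff _ hinj]
    exact Finset.prod_ne_zero_iff.mpr (fun k _ => hc k)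
  · apply IsHomogeneous.of_map hinj
    rw [hmap i]
    have := (isHomogeneous_C ι (algebraMap (𝓞 K) K (∏ k, c k))).mul (hF i)
    rwa [zero_add] at this

/-- `G` has no zero if `F` has none -/
theorem model_no_zero {F : ι → MvPolynomial ι K} {G : ι → MvPolynomial ι (𝓞 K)}
    (h0 : ∀ x : ι → AlgebraicClosure K, ev F x = 0 → x = 0) (hM : Model F G) :
    ∀ x : ι → AlgebraicClosure K, ev G x = 0 → x = 0 := by
  obtain ⟨c, hc, hcF⟩ := hM
  intro x hx
  apply h0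
  have h1 : ev G x = algebraMap K (AlgebraicClosure K) c • ev F x := by
    funext i
    simp only [ev, Pi.smul_apply, smul_eq_mul]
    rw [← aeval_map_algebraMap K, hcF i, map_mul, aeval_C]
  rw [h1] at hx
  rcases smul_eq_zero.mp hx with h | h
  · exact absurd ((map_eq_zero _).mp h) hc
  · exact h

/-- forms giving the iterates -/
theorem exists_iter (F : ι → MvPolynomial ι K) (d : ℕ) (hF : ∀ i, (F i).IsHomogeneous d) (k : ℕ) :
    ∃ H : ι → MvPolynomial ι K, (∀ i, (H i).IsHomogeneous (d ^ k)) ∧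
      ∀ x : ι → AlgebraicClosure K, ev H x = (ev F)^[k] x := by
  induction k with
  | zero =>
    refine ⟨X, fun i => by rw [pow_zero]; exact isHomogeneous_X _ i, fun x => ?_⟩
    funext i
    simp [ev]
  | succ k ih =>
    obtain ⟨H, hH, hx⟩ := ih
    refine ⟨fun i => aeval F (H i), fun i => ?_, fun x => ?_⟩
    · rw [pow_succ']
      exact (hH i).aeval F hF
    · rw [Function.iterate_succ_apply, ← hx]
      funext i
      simp only [ev]
      exact comp_aeval_apply _ (aeval x) (H i)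

theorem Cg.up {v : HeightOneSpectrum (𝓞 K)} {Q : Ideal (𝓞 (AlgebraicClosure K))}
    (hQv : Q.comap (algebraMap (𝓞 K) (𝓞 (AlgebraicClosure K))) = v.asIdeal) {x : ι → K}
    {a : ι → 𝓞 K} (h : Rep v.asIdeal x a) :
    Rep Q (upK x) (fun i => algebraMap (𝓞 K) (𝓞 (AlgebraicClosure K)) (a i)) := by
  refine ⟨?_, ?_⟩
  · obtain ⟨i, hi⟩ := h.1
    refine ⟨i, fun hc => hi ?_⟩
    rw [← hQv]
    exact hc
  · exact Par.upK h.2

theorem cg_up {v : HeightOneSpectrum (𝓞 K)} {Q : Ideal (𝓞 (AlgebraicClosure K))}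
    (hQv : Q.comap (algebraMap (𝓞 K) (𝓞 (AlgebraicClosure K))) = v.asIdeal) {x y : ι → K}
    (h : Cg v.asIdeal x y) : Cg Q (upK x) (upK y) := by
  obtain ⟨a, b, ha, hb, hm⟩ := h
  refine ⟨_, _, Cg.up hQv ha, Cg.up hQv hb, ?_⟩
  intro i j
  rw [← map_mul, ← map_mul, ← map_sub]
  have := hm i j
  rw [← hQv] at this
  exact this

theorem cg_down {v : HeightOneSpectrum (𝓞 K)} {Q : Ideal (𝓞 (AlgebraicClosure K))} [Q.IsPrime]
    (hQv : Q.comap (algebraMap (𝓞 K) (𝓞 (AlgebraicClosure K))) = v.asIdeal) {x y : ι → K}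
    (hx : x ≠ 0) (hy : y ≠ 0) (h : Cg Q (upK x) (upK y)) : Cg v.asIdeal x y := by
  haveI := v.isPrime
  obtain ⟨a, ha⟩ := exists_rep v.asIdeal (vp_base v) x hx
  obtain ⟨b, hb⟩ := exists_rep v.asIdeal (vp_base v) y hy
  have hm := Cg.min (upK_ne_zero hx) (upK_ne_zero hy) (Cg.up hQv ha) (Cg.up hQv hb) h
  refine ⟨a, b, ha, hb, fun i j => ?_⟩
  have := hm i j
  rw [← map_mul, ← map_mul, ← map_sub] at this
  rw [← hQv]
  exact this

theorem Cg.par_left {R L : Type} [CommRing R] [Field L] [Algebra R L] {P : Ideal R}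
    {x x' y : ι → L} (hx : x ≠ 0) (h : Par x x') (hc : Cg P x y) : Cg P x' y := by
  obtain ⟨a, b, ha, hb, hm⟩ := hc
  exact ⟨a, b, ⟨ha.1, Par.trans hx h.symm ha.2⟩, hb, hm⟩

end model

section core

variable {K : Type} [Field K] [NumberField K] {ι : Type} [Fintype ι]

/-- the Galois elements without fixed points among the points `x` with `F^(n+e) x` in `T` and
`F^n x` not in `Z` -/
def CC (F : ι → MvPolynomial ι K) (n e : ℕ) (T Z : Set (ι → K)) : Set (GK K) :=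
  {σ | ∀ x : ι → AlgebraicClosure K, x ≠ 0 →
    (∃ z ∈ T, Par ((ev F)^[n + e] x) (upK z)) →
    (∀ z' ∈ Z, ¬ Par ((ev F)^[n] x) (upK z')) → ¬ Par (cj σ x) x}

theorem cj_mul (σ τ : GK K) (x : ι → AlgebraicClosure K) : cj (σ * τ) x = cj σ (cj τ x) := rfl

theorem cj_one (x : ι → AlgebraicClosure K) : cj (1 : GK K) x = x := rfl

theorem cj_inv (σ : GK K) (x : ι → AlgebraicClosure K) : cj σ⁻¹ (cj σ x) = x := by
  rw [← cj_mul, inv_mul_cancel, cj_one]

theorem cj_inv' (σ : GK K) (x : ι → AlgebraicClosure K) : cj σ (cj σ⁻¹ x) = x := by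
  rw [← cj_mul, mul_inv_cancel, cj_one]

theorem cj_it (σ : GK K) (F : ι → MvPolynomial ι K) (x : ι → AlgebraicClosure K) (k : ℕ) :
    cj σ ((ev F)^[k] x) = (ev F)^[k] (cj σ x) := by
  induction k with
  | zero => rfl
  | succ k ih => rw [Function.iterate_succ_apply', cj_ev, ih, ← Function.iterate_succ_apply' (ev F)]

/-- the Galois elements fixing all points `x` with `F^m x` in `T` -/
def UU (F : ι → MvPolynomial ι K) (m : ℕ) (T : Set (ι → K)) : Subgroup (GK K) where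
  carrier := {σ | ∀ x : ι → AlgebraicClosure K, x ≠ 0 →
    (∃ z ∈ T, Par ((ev F)^[m] x) (upK z)) → Par (cj σ x) x}
  one_mem' := fun x _ _ => Par.refl x
  mul_mem' := by
    intro σ τ hσ hτ x hx hz
    rw [cj_mul]
    exact Par.trans (cj_ne_zero σ hx) ((hτ x hx hz).cj σ) (hσ x hx hz)
  inv_mem' := by
    intro σ hσ x hx hz
    have h := (hσ x hx hz).cj σ⁻¹
    rw [cj_inv] at h
    exact h.symm

theorem fib_cj (F : ι → MvPolynomial ι K) (m : ℕ) (T : Set (ι → K)) (σ : GK K)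
    {x : ι → AlgebraicClosure K} (hz : ∃ z ∈ T, Par ((ev F)^[m] x) (upK z)) :
    ∃ z ∈ T, Par ((ev F)^[m] (cj σ x)) (upK z) := by
  obtain ⟨z, hz, h⟩ := hz
  refine ⟨z, hz, ?_⟩
  have h1 := h.cj σ
  rwa [cj_it, cj_upK] at h1

instance UU_normal (F : ι → MvPolynomial ι K) (m : ℕ) (T : Set (ι → K)) : (UU F m T).Normal where
  conj_mem := by
    intro σ hσ τ x hx hz
    have h1 := hσ (cj τ⁻¹ x) (cj_ne_zero _ hx) (fib_cj F m T τ⁻¹ hz)
    have h2 := h1.cj τ
    rw [cj_inv'] at h2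
    rw [cj_mul, cj_mul]
    exact h2

theorem UU_open {F : ι → MvPolynomial ι K} {d : ℕ} (hd : 1 ≤ d) (hF : ∀ i, (F i).IsHomogeneous d)
    (h0 : ∀ x : ι → AlgebraicClosure K, ev F x = 0 → x = 0) (m : ℕ) (T : Set (ι → K))
    (hT : T.Finite) (hT0 : ∀ z ∈ T, z ≠ 0) : IsOpen (UU F m T : Set (GK K)) := by
  classical
  obtain ⟨H, hH, hHx⟩ := exists_iter F d hF m
  have hH0 : ∀ x : ι → AlgebraicClosure K, ev H x = 0 → x = 0 := by
    intro x hx
    by_contra hne
    rw [hHx] at hx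
    exact it_ne_zero h0 hne m hx
  have hD : 1 ≤ d ^ m := Nat.one_le_pow _ _ hd
  have h1 := fun z : T => fib_reps hD hH hH0 (upK (z : ι → K)) (upK_ne_zero (hT0 z z.2))
  choose τ hτ y hy hall using h1
  haveI := hT.to_subtype
  haveI : ∀ z, Finite (τ z) := fun z => @Fintype.finite _ (hτ z)
  let V : Subgroup (GK K) := ⨅ z : T, ⨅ s : τ z, ⨅ i : ι,
    MulAction.stabilizer (GK K) (up (y z s) i)
  have hV : IsOpen (V : Set (GK K)) := by
    have hst : ∀ (z : T) (s : τ z) (i : ι),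
        IsOpen (MulAction.stabilizer (GK K) (up (y z s) i) : Set (GK K)) :=
      fun z s i => stabilizer_isOpen_of_isIntegral (K := K) (L := AlgebraicClosure K) _
    simp only [V, Subgroup.coe_iInf]
    refine isOpen_iInter_of_finite fun z => isOpen_iInter_of_finite fun s =>
      isOpen_iInter_of_finite fun i => hst z s i
  refine Subgroup.isOpen_mono ?_ hV
  intro σ hσ x hx hz
  obtain ⟨z, hz, h⟩ := hz
  rw [← hHx] at h
  obtain ⟨s, hs⟩ := hall ⟨z, hz⟩ x hx h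
  have hfix : cj σ (up (y ⟨z, hz⟩ s)) = up (y ⟨z, hz⟩ s) := by
    funext i
    simp only [V, Subgroup.mem_iInf] at hσ
    exact hσ ⟨z, hz⟩ s i
  have hne := up_ne_zero (hy ⟨z, hz⟩ s).1
  have h2 := hs.cj σ
  rw [hfix] at h2
  exact Par.trans hne h2 hs.symm

/-- **The sieving set of primes.** -/
theorem core {F : ι → MvPolynomial ι K} {d : ℕ} (hd : 1 ≤ d) (hF : ∀ i, (F i).IsHomogeneous d)
    (h0 : ∀ x : ι → AlgebraicClosure K, ev F x = 0 → x = 0) (n e : ℕ) (T Z : Set (ι → K))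
    (hT : T.Finite) (hT0 : ∀ z ∈ T, z ≠ 0) (hZ0 : ∀ z ∈ Z, z ≠ 0) (hne : (CC F n e T Z).Nonempty) :
    ∃ P : Set (HeightOneSpectrum (𝓞 K)), PosDens P ∧ ∀ v ∈ P, ∀ u : ι → K, u ≠ 0 → ∀ z ∈ T,
      Cg v.asIdeal ((ev F)^[n + e] u) z → ∃ z' ∈ Z, Cg v.asIdeal ((ev F)^[n] u) z' := by
  classical
  obtain ⟨G, hM, hG⟩ := exists_model F d hF
  obtain ⟨H, hH, hHx⟩ := exists_iter F d hF (n + e)
  have hH0 : ∀ x : ι → AlgebraicClosure K, ev H x = 0 → x = 0 := by
    intro x hx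
    by_contra hne
    rw [hHx] at hx
    exact it_ne_zero h0 hne _ hx
  have hD : 1 ≤ d ^ (n + e) := Nat.one_le_pow _ _ hd
  obtain ⟨GH, hMH, hGH⟩ := exists_model H _ hH
  have hlift := fun z : T => lift_fix (G := GH) hD hH hH0 hMH (z : ι → K) (hT0 z z.2)
  haveI := hT.to_subtype
  have hAA := (AA.all hlift).and (aa_good (K := K) (model_no_zero h0 hM))
  have hfin := hAA.finite
  set E := {v : HeightOneSpectrum (𝓞 K) | ∃ Q : Ideal (𝓞 (AlgebraicClosure K)), Q.IsMaximal ∧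
      Q.comap (algebraMap (𝓞 K) (𝓞 (AlgebraicClosure K))) = v.asIdeal ∧ ¬ _} with hE
  have hP0 : PosDens {v : HeightOneSpectrum (𝓞 K) | ∃ σ ∈ CC F n e T Z, IsFrob v σ} := by
    apply posDens_frob (UU F (n + e) T) (UU_open hd hF h0 _ T hT hT0) _ _ _ hne
    · -- conjugation
      intro σ hσ τ x hx hz hz' hpar
      refine hσ (cj τ⁻¹ x) (cj_ne_zero _ hx) (fib_cj F _ T τ⁻¹ hz) ?_ ?_
      · intro z' hz'Z h
        apply hz' z' hz'Z
        have h1 := h.cj τ
        rwa [cj_it, cj_inv', cj_upK] at h1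
      · have h1 := hpar.cj τ⁻¹
        rw [cj_mul, cj_mul, cj_inv] at h1
        exact h1
    · intro σ hσ u hu x hx hz hz' hpar
      refine hσ x hx hz hz' ?_
      have h1 := hu x hx hz
      rw [cj_mul] at hpar
      exact Par.trans (cj_ne_zero _ (cj_ne_zero _ hx)) (h1.cj σ).symm hpar
  refine ⟨{v : HeightOneSpectrum (𝓞 K) | ∃ σ ∈ CC F n e T Z, IsFrob v σ} \ E,
    hP0.of_diff (hfin.subset ?_), ?_⟩
  · intro v hv
    by_contra hcon
    exact hv.2 ⟨hv.1, hcon⟩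
  · rintro v ⟨⟨σ, hσ, Q, hQ, hQv, hfrob⟩, hvE⟩ u hu z hz hcg
    by_contra hcon
    push Not at hcon
    haveI := hQ
    haveI := hQ.isPrime
    haveI := v.isPrime
    have hT := Classical.byContradiction (fun h => hvE ⟨Q, hQ, hQv, h⟩)
    obtain ⟨hL, hgood⟩ := hT
    obtain ⟨b, hb⟩ := exists_rep v.asIdeal (vp_base v) u hu
    obtain ⟨x, hx, hxz, hfix, hxu⟩ := hL ⟨z, hz⟩ σ _ hfrob u hu ⟨b, Cg.up hQv hb⟩ (by
      rw [hHx, ← upK_it]
      exact cg_up hQv hcg)
    rw [hHx] at hxz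
    refine hσ x hx ⟨z, hz, hxz⟩ ?_ hfix
    intro z' hz' hpar
    apply hcon z' hz'
    have h1 := Cg.it hF hG h0 hM hgood hx (upK_ne_zero hu) hxu n
    have hne1 : (ev F)^[n] x ≠ 0 := it_ne_zero h0 hx n
    have h2 := (Cg.par_left hne1 hpar h1).symm
    rw [← upK_it] at h2
    refine cg_down hQv ?_ (hZ0 z' hz') h2
    intro h3
    have h4 : upK ((ev F)^[n] u) = 0 := by rw [h3]; funext i; simp [upK]
    rw [upK_it] at h4
    exact it_ne_zero h0 (upK_ne_zero hu) n h4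

/-- a Galois element from one prime of good reduction -/
theorem exists_galois {F : ι → MvPolynomial ι K} {G : ι → MvPolynomial ι (𝓞 K)} {d : ℕ}
    (hF : ∀ i, (F i).IsHomogeneous d) (hG : ∀ i, (G i).IsHomogeneous d)
    (h0 : ∀ x : ι → AlgebraicClosure K, ev F x = 0 → x = 0) (hM : Model F G) (e : ℕ)
    (T Z : Set (ι → K)) (v : HeightOneSpectrum (𝓞 K))
    (H : ∀ Q : Ideal (𝓞 (AlgebraicClosure K)), Q.IsMaximal →
      Q.comap (algebraMap (𝓞 K) (𝓞 (AlgebraicClosure K))) = v.asIdeal → Good G Q ∧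
      ∀ w : ι → AlgebraicClosure K, w ≠ 0 → (∃ z ∈ T, Par ((ev F)^[e] w) (upK z)) →
        (∀ z' ∈ Z, ¬ Par w (upK z')) → ∀ t, 1 ≤ t → ¬ Cg Q ((ev F)^[t] w) w) :
    ∃ n, (CC F n e T Z).Nonempty := by
  obtain ⟨σ, Q, hQ, hQv, hfrob⟩ := exists_isFrob v
  haveI := hQ
  obtain ⟨hgood, hw⟩ := H Q hQ hQv
  have hq : 1 < Ideal.absNorm v.asIdeal := by
    haveI := v.isPrime
    have h1 := Ideal.absNorm_eq_zero_iff (I := v.asIdeal)
    have h2 := Ideal.absNorm_eq_one_iff (I := v.asIdeal)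
    have h3 : Ideal.absNorm v.asIdeal ≠ 0 := fun h => v.ne_bot (h1.mp h)
    have h4 : Ideal.absNorm v.asIdeal ≠ 1 := fun h => v.isPrime.ne_top (h2.mp h)
    omega
  refine ⟨Ideal.absNorm v.asIdeal ^ Fintype.card ι, σ, ?_⟩
  intro x hx hz hz' hpar
  obtain ⟨t, ht, hcg⟩ := frob_periodic (v := v) hQv _ hq hfrob hF hG h0 hM hgood hx hpar _ le_rfl
  refine hw ((ev F)^[_] x) (it_ne_zero h0 hx _) ?_ hz' t ht hcg
  obtain ⟨z, hz, h⟩ := hz
  refine ⟨z, hz, ?_⟩
  rw [← Function.iterate_add_apply, add_comm]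
  exact h

end core

end Pool.Agent.H423.OA
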