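import Pool.Agent.H423.OA.Fix
import Pool.Graph.R_pool_sql_team_seeded_f72693b1.W401.Cheb.Full

/-! Densities; integral models and iterates. -/

set_option autoImplicit false
set_option linter.all false

namespace Pool.Agent.H423.OA

open MvPolynomial NumberField IsDedekindDomain Filter Topology
open Pool.Agent.W401.Cheb

section dens

variable {K : Type} [Field K] [NumberField K]

/-- the primes of norm at most `x` in `S` -/
def upTo (S : Set (HeightOneSpectrum (𝓞 K))) (x : ℕ) : Set (HeightOneSpectrum (𝓞 K)) :=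
  {v | v ∈ S ∧ Ideal.absNorm v.asIdeal ≤ x}

/-- the proportion of the primes in `S` among all primes of norm at most `x` -/
noncomputable def prop (S : Set (HeightOneSpectrum (𝓞 K))) (x : ℕ) : ℝ :=
  ((upTo S x).ncard : ℝ) / ((upTo (Set.univ : Set (HeightOneSpectrum (𝓞 K))) x).ncard : ℝ)

/-- `S` has positive (lower) density -/
def PosDens (S : Set (HeightOneSpectrum (𝓞 K))) : Prop := 0 < liminf (prop S) atTop

theorem fin_upTo (S : Set (HeightOneSpectrum (𝓞 K))) (x : ℕ) : (upTo S x).Finite :=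
  (Pool.Agent.W352.ChAbs.finite_le x).subset (fun _ h => h.2)

theorem prop_nonneg (S : Set (HeightOneSpectrum (𝓞 K))) (x : ℕ) : 0 ≤ prop S x := by
  unfold prop; positivity

theorem prop_le_one (S : Set (HeightOneSpectrum (𝓞 K))) (x : ℕ) : prop S x ≤ 1 := by
  unfold prop
  apply div_le_one_of_le₀ _ (Nat.cast_nonneg _)
  exact_mod_cast Set.ncard_le_ncard (s := upTo S x) (t := upTo Set.univ x)
    (fun _ h => ⟨trivial, h.2⟩) (fin_upTo _ x)

theorem card_eq (P : HeightOneSpectrum (𝓞 K) → Prop) (x : ℕ) :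
    Nat.card {v : HeightOneSpectrum (𝓞 K) // Ideal.absNorm v.asIdeal ≤ x ∧ P v} =
      (upTo {v | P v} x).ncard := by
  rw [← Nat.card_coe_set_eq]
  apply Nat.card_congr
  exact Equiv.subtypeEquivRight (fun v => and_comm)

theorem posDens_iff (S : Set (HeightOneSpectrum (𝓞 K))) :
    PosDens S ↔ ∃ c : ℝ, 0 < c ∧ ∀ᶠ x in atTop, c ≤ prop S x := by
  constructor
  · intro h
    refine ⟨liminf (prop S) atTop / 2, half_pos h, ?_⟩
    have h1 : liminf (prop S) atTop / 2 < liminf (prop S) atTop := half_lt_self h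
    have h2 : IsBoundedUnder (· ≥ ·) atTop (prop S) :=
      isBoundedUnder_of ⟨0, fun x => prop_nonneg S x⟩
    filter_upwards [eventually_lt_of_lt_liminf h1 h2] with x hx using hx.le
  · rintro ⟨c, hc, h⟩
    have h2 : IsCoboundedUnder (· ≥ ·) atTop (prop S) :=
      (isBoundedUnder_of ⟨1, fun x => prop_le_one S x⟩).isCoboundedUnder_flip
    exact lt_of_lt_of_le hc (le_liminf_of_le h2 h)

/-- every prime has a Frobenius element -/
theorem exists_isFrob (v : HeightOneSpectrum (𝓞 K)) : ∃ (σ : GK K)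
    (Q : Ideal (𝓞 (AlgebraicClosure K))), Q.IsMaximal ∧
    Q.comap (algebraMap (𝓞 K) (𝓞 (AlgebraicClosure K))) = v.asIdeal ∧
    ∀ x : 𝓞 (AlgebraicClosure K), σ • x - x ^ Ideal.absNorm v.asIdeal ∈ Q := by
  haveI : v.asIdeal.IsMaximal := v.isMaximal
  obtain ⟨Q, hQ, hQv⟩ := Ideal.exists_ideal_over_maximal_of_isIntegral
    (S := 𝓞 (AlgebraicClosure K)) v.asIdeal (by
      rw [(RingHom.injective_iff_ker_eq_bot _).mp
        (FaithfulSMul.algebraMap_injective (𝓞 K) (𝓞 (AlgebraicClosure K)))]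
      exact bot_le)
  haveI := hQ
  obtain ⟨σ, hσ⟩ := Pool.Agent.W352.ChAbs.exists_frob v Q hQv
  exact ⟨σ, Q, hQ, hQv, hσ⟩

/-- the number of all primes is asymptotic to the number of rational primes -/
theorem all_dens : Tendsto (dens (K := K) fun v => ∃ σ ∈ (Set.univ : Set (GK K)), IsFrob v σ) atTop
    (𝓝 1) := by
  have h := chebK K ⊤ isOpen_univ Set.univ (fun _ _ _ => trivial) (fun _ _ _ _ => trivial)
  have e : ((((QuotientGroup.mk : GK K → GK K ⧸ (⊤ : Subgroup (GK K))) '' Set.univ).ncard : ℝ) /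
      (Nat.card (GK K ⧸ (⊤ : Subgroup (GK K))) : ℝ)) = 1 := by
    have h1 : Nat.card (GK K ⧸ (⊤ : Subgroup (GK K))) = 1 := by
      rw [Nat.card_eq_one_iff_unique]
      exact ⟨QuotientGroup.subsingleton_quotient_top, ⟨1⟩⟩
    rw [Set.image_univ, Set.range_eq_univ.mpr QuotientGroup.mk_surjective, Set.ncard_univ, h1]
    simp
  rw [e] at h
  exact h

theorem upTo_all (x : ℕ) :
    upTo {v : HeightOneSpectrum (𝓞 K) | ∃ σ ∈ (Set.univ : Set (GK K)), IsFrob v σ} x =
      upTo Set.univ x := by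
  ext v
  refine ⟨fun h => ⟨trivial, h.2⟩, fun h => ⟨?_, h.2⟩⟩
  obtain ⟨σ, Q, hQ⟩ := exists_isFrob v
  exact ⟨σ, trivial, Q, hQ⟩

theorem card_all_tendsto : Tendsto (fun x : ℕ =>
    ((upTo (Set.univ : Set (HeightOneSpectrum (𝓞 K))) x).ncard : ℝ)) atTop atTop := by
  have h := all_dens (K := K)
  have hpi : Tendsto (fun N : ℕ => (Nat.primeCounting N : ℝ)) atTop atTop :=
    tendsto_natCast_atTop_atTop.comp Nat.tendsto_primeCounting
  have h1 := h.pos_mul_atTop one_pos hpi
  refine h1.congr' ?_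
  filter_upwards [hpi.eventually_gt_atTop 0] with x hx
  unfold dens
  rw [card_eq, upTo_all, div_mul_cancel₀ _ hx.ne']

theorem prop_tendsto (P : HeightOneSpectrum (𝓞 K) → Prop) (c : ℝ)
    (h : Tendsto (dens P) atTop (𝓝 c)) : Tendsto (prop {v | P v}) atTop (𝓝 c) := by
  have h1 := h.div (all_dens (K := K)) one_ne_zero
  rw [div_one] at h1
  refine h1.congr' ?_
  have hpi : Tendsto (fun N : ℕ => (Nat.primeCounting N : ℝ)) atTop atTop :=
    tendsto_natCast_atTop_atTop.comp Nat.tendsto_primeCounting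
  filter_upwards [hpi.eventually_gt_atTop 0] with x hx
  simp only [Pi.div_apply]
  unfold dens prop
  rw [card_eq, card_eq, upTo_all, div_div_div_cancel_right₀ hx.ne']

theorem PosDens.of_diff {P S : Set (HeightOneSpectrum (𝓞 K))} (hP : PosDens P)
    (h : (P \ S).Finite) : PosDens S := by
  rw [posDens_iff] at hP ⊢
  obtain ⟨c, hc, hP⟩ := hP
  refine ⟨c / 2, half_pos hc, ?_⟩
  have hm := (card_all_tendsto (K := K)).eventually_ge_atTop (2 * ((P \ S).ncard : ℝ) / c + 1)
  filter_upwards [hP, hm] with x hx hm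
  have hA : (0 : ℝ) < ((upTo (Set.univ : Set (HeightOneSpectrum (𝓞 K))) x).ncard : ℝ) := by
    have : (0:ℝ) ≤ 2 * ((P \ S).ncard : ℝ) / c := by positivity
    linarith
  have hcard : (upTo P x).ncard ≤ (upTo S x).ncard + (P \ S).ncard := by
    have h1 : upTo P x ⊆ upTo S x ∪ (P \ S) := by
      intro v hv
      by_cases hs : v ∈ S
      · exact Or.inl ⟨hs, hv.2⟩
      · exact Or.inr ⟨hv.1, hs⟩
    refine le_trans (Set.ncard_le_ncard h1 ((fin_upTo S x).union h)) ?_
    exact Set.ncard_union_le _ _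
  unfold prop at hx ⊢
  rw [le_div_iff₀ hA] at hx ⊢
  have h2 : (2 * ((P \ S).ncard : ℝ) / c) ≤
      ((upTo (Set.univ : Set (HeightOneSpectrum (𝓞 K))) x).ncard : ℝ) := by linarith
  rw [div_le_iff₀ hc] at h2
  have h3 : ((upTo P x).ncard : ℝ) ≤ (upTo S x).ncard + (P \ S).ncard := by exact_mod_cast hcard
  nlinarith

/-- infinitely many primes -/
theorem PosDens.infinite {S : Set (HeightOneSpectrum (𝓞 K))} (hS : PosDens S) : S.Infinite := by
  intro hfin
  have h : PosDens (∅ : Set (HeightOneSpectrum (𝓞 K))) := hS.of_diff (by simpa using hfin)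
  rw [posDens_iff] at h
  obtain ⟨c, hc, h⟩ := h
  obtain ⟨x, hx⟩ := h.exists
  have h0 : upTo (∅ : Set (HeightOneSpectrum (𝓞 K))) x = ∅ := by
    ext v; simp [upTo]
  unfold prop at hx
  rw [h0, Set.ncard_empty, Nat.cast_zero, zero_div] at hx
  linarith

/-- **Positive density of a set of primes given by Frobenius elements.** -/
theorem posDens_frob (U : Subgroup (GK K)) [U.Normal] (hU : IsOpen (U : Set (GK K)))
    (C : Set (GK K)) (h1 : ∀ σ ∈ C, ∀ τ : GK K, τ * σ * τ⁻¹ ∈ C) (h2 : ∀ σ ∈ C, ∀ u ∈ U, σ * u ∈ C)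
    (hne : C.Nonempty) : PosDens {v : HeightOneSpectrum (𝓞 K) | ∃ σ ∈ C, IsFrob v σ} := by
  have h := prop_tendsto _ _ (chebK K U hU C h1 h2)
  haveI : Finite (GK K ⧸ U) := by
    haveI : CompactSpace (GK K) := inferInstance
    exact Subgroup.quotient_finite_of_isOpen U hU
  have hpos : (0 : ℝ) < (((QuotientGroup.mk : GK K → GK K ⧸ U) '' C).ncard : ℝ) /
      (Nat.card (GK K ⧸ U) : ℝ) := by
    apply div_pos
    · have : 0 < ((QuotientGroup.mk : GK K → GK K ⧸ U) '' C).ncard :=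
        (Set.ncard_pos (Set.toFinite _)).mpr (hne.image _)
      exact_mod_cast this
    · exact_mod_cast Nat.card_pos
  rw [posDens_iff]
  refine ⟨_, half_pos hpos, ?_⟩
  filter_upwards [h.eventually (lt_mem_nhds (half_lt_self hpos))] with x hx using hx.le

theorem AA.finite {T : Ideal (𝓞 (AlgebraicClosure K)) → Prop} (h : AA T) :
    {v : HeightOneSpectrum (𝓞 K) | ∃ Q : Ideal (𝓞 (AlgebraicClosure K)), Q.IsMaximal ∧
      Q.comap (algebraMap (𝓞 K) (𝓞 (AlgebraicClosure K))) = v.asIdeal ∧ ¬ T Q}.Finite := by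
  obtain ⟨c, hc, h⟩ := h
  have hc' : Ideal.span {c} ≠ ⊥ := by rwa [Ne, Ideal.span_singleton_eq_bot]
  refine (Ideal.finite_factors hc').subset ?_
  rintro v ⟨Q, hQ, hQv, hT⟩
  simp only [Set.mem_ofPred_eq]
  rw [Ideal.dvd_span_singleton, ← hQv, Ideal.mem_comap]
  by_contra hcon
  exact hT (h Q hQ hcon)

theorem infinite_primes : (Set.univ : Set (HeightOneSpectrum (𝓞 K))).Infinite := by
  have h : PosDens (Set.univ : Set (HeightOneSpectrum (𝓞 K))) := by
    have h1 := posDens_frob (K := K) ⊤ isOpen_univ Set.univ (fun _ _ _ => trivial)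
      (fun _ _ _ _ => trivial) ⟨1, trivial⟩
    exact h1.of_diff (by simp)
  exact h.infinite

/-- `AA` properties hold at some prime -/
theorem AA.exists {T : Ideal (𝓞 (AlgebraicClosure K)) → Prop} (h : AA T) :
    ∃ (v : HeightOneSpectrum (𝓞 K)), ∀ Q : Ideal (𝓞 (AlgebraicClosure K)), Q.IsMaximal →
      Q.comap (algebraMap (𝓞 K) (𝓞 (AlgebraicClosure K))) = v.asIdeal → T Q := by
  obtain ⟨v, -, hv⟩ := (infinite_primes (K := K)).exists_notMem_finite h.finite
  refine ⟨v, fun Q hQ hQv => ?_⟩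
  by_contra hcon
  exact hv ⟨Q, hQ, hQv, hcon⟩

end dens

end Pool.Agent.H423.OA
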