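import Pool.Agent.H423.OA.Pt

/-! Finiteness of the fibres of a map given by forms without common zero. -/

set_option autoImplicit false
set_option linter.all false

namespace Pool.Agent.H423.OA

open MvPolynomial

attribute [local instance] MvPolynomial.gradedAlgebra

section fib

variable {ι A : Type} [Fintype ι] [Field A] [IsAlgClosed A]

theorem hcomp_mul {R : Type} [CommRing R] (p q : MvPolynomial ι R) (D n : ℕ)
    (hq : q.IsHomogeneous D) (hn : D ≤ n) :
    homogeneousComponent n (p * q) = homogeneousComponent (n - D) p * q := by
  classical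
  have h := DirectSum.coe_decompose_mul_of_right_mem_of_le (homogeneousSubmodule ι R) (a := p)
    (b := q) (i := D) (n := n) hq hn
  have e : ∀ (φ : MvPolynomial ι R) (i : ℕ),
      (DirectSum.decompose (homogeneousSubmodule ι R) φ i : MvPolynomial ι R) =
        homogeneousComponent i φ := fun φ i => decomposition.decompose'_apply φ i
  rw [e, e] at h
  exact h

theorem pow_mem_span (G : ι → MvPolynomial ι A) (h0 : ∀ x : ι → A, ev G x = 0 → x = 0) :
    ∃ M0 : ℕ, ∀ M, M0 ≤ M → ∀ i, (X i : MvPolynomial ι A) ^ M ∈ Ideal.span (Set.range G) := by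
  have h1 : ∀ i, ∃ m : ℕ, (X i : MvPolynomial ι A) ^ m ∈ Ideal.span (Set.range G) := by
    intro i
    have h := vanishingIdeal_zeroLocus_eq_radical (K := A) (Ideal.span (Set.range G))
    have hx : (X i : MvPolynomial ι A) ∈ vanishingIdeal A (zeroLocus A (Ideal.span (Set.range G))) := by
      intro x hx
      have hx0 : x = 0 := by
        apply h0
        funext j
        exact hx (G j) (Ideal.subset_span ⟨j, rfl⟩)
      rw [hx0]; simp
    rw [h] at hx
    exact hx
  choose m hm using h1
  refine ⟨∑ i, m i, fun M hM i => ?_⟩
  have hle : m i ≤ M := le_trans (Finset.single_le_sum (fun _ _ => Nat.zero_le _) (Finset.mem_univ i)) hM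
  rw [← Nat.sub_add_cancel hle, pow_add]
  exact Ideal.mul_mem_left _ _ (hm i)

theorem exists_coef (G : ι → MvPolynomial ι A) (D : ℕ) (hG : ∀ i, (G i).IsHomogeneous D)
    (M : ℕ) (hM : D ≤ M) (i : ι) (h : (X i : MvPolynomial ι A) ^ M ∈ Ideal.span (Set.range G)) :
    ∃ a : ι → MvPolynomial ι A, (∀ j, (a j).totalDegree ≤ M - D) ∧ ∑ j, a j * G j = X i ^ M := by
  obtain ⟨c, hc⟩ := (Ideal.mem_span_range_iff_exists_fun).mp h
  refine ⟨fun j => homogeneousComponent (M - D) (c j), fun j => ?_, ?_⟩
  · exact (homogeneousComponent_isHomogeneous _ _).totalDegree_le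
  · have h1 := congrArg (homogeneousComponent M) hc
    rw [map_sum, homogeneousComponent_eq_self ((isHomogeneous_X_pow i M))] at h1
    rw [← h1]
    apply Finset.sum_congr rfl
    intro j _
    exact (hcomp_mul _ _ D M (hG j) hM).symm

theorem fin_fib (G : ι → MvPolynomial ι A) (D : ℕ) (hD : 1 ≤ D)
    (hG : ∀ i, (G i).IsHomogeneous D)
    (h0 : ∀ x : ι → A, ev G x = 0 → x = 0) (z : ι → A) : {x : ι → A | ev G x = z}.Finite := by
  classical
  obtain ⟨M0, hM0⟩ := pow_mem_span G h0
  obtain ⟨M, hM1, hM2⟩ : ∃ M, M0 ≤ M ∧ D ≤ M := ⟨max M0 D, le_max_left _ _, le_max_right _ _⟩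
  have hc := fun i => exists_coef G D hG M hM2 i (hM0 M hM1 i)
  choose a ha hsum using hc
  set Fb : Set (ι → A) := {x : ι → A | ev G x = z} with hFb
  let φ : MvPolynomial ι A →ₐ[A] (Fb → A) := AlgHom.pi (fun x => aeval (x : ι → A))
  have hφ : ∀ p (x : Fb), φ p x = aeval (x : ι → A) p := fun p x => rfl
  set B : ℕ := Fintype.card ι * M + 1 with hB
  let W : Submodule A (Fb → A) := Submodule.span A
    ((fun m : ι →₀ ℕ => φ (monomial m 1)) '' {m | m.degree < B})
  have hfinset : {m : ι →₀ ℕ | m.degree < B}.Finite := by
    apply Set.Finite.subset (Set.finite_Iic (Finsupp.equivFunOnFinite.symm (fun _ : ι => B)))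
    intro m hm i
    simp only [Finsupp.equivFunOnFinite_symm_apply_apply]
    exact le_trans (Finsupp.le_degree i m) (le_of_lt hm)
  have hWfin : FiniteDimensional A W := by
    exact FiniteDimensional.span_of_finite A (hfinset.image _)
  -- all polynomials map into `W`
  have key : ∀ e : ℕ, ∀ p : MvPolynomial ι A, p.totalDegree ≤ e → φ p ∈ W := by
    intro e
    induction e using Nat.strong_induction_on with
    | _ e ih =>
      intro p hp
      rw [p.as_sum, map_sum]
      apply Submodule.sum_mem
      intro m hm
      have hmd : m.degree ≤ e := by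
        refine le_trans ?_ hp
        exact le_totalDegree hm
      have hcm : φ (monomial m (coeff m p)) = coeff m p • φ (monomial m 1) := by
        rw [← map_smul, smul_monomial, smul_eq_mul, mul_one]
      rw [hcm]
      apply Submodule.smul_mem
      by_cases hlt : m.degree < B
      · exact Submodule.subset_span ⟨m, hlt, rfl⟩
      · push Not at hlt
        -- some exponent is at least `M`
        have hex : ∃ i, M ≤ m i := by
          by_contra hcon
          push Not at hcon
          have h1 : m.degree ≤ ∑ _i : ι, M := by
            rw [Finsupp.degree_eq_sum]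
            exact Finset.sum_le_sum (fun i _ => (hcon i).le)
          rw [Finset.sum_const, Finset.card_univ, smul_eq_mul] at h1
          omega
        obtain ⟨i, hi⟩ := hex
        set m' : ι →₀ ℕ := m - Finsupp.single i M with hm'
        have hmm : m = m' + Finsupp.single i M := by
          rw [hm', tsub_add_cancel_of_le]
          rwa [Finsupp.single_le_iff]
        have hdeg : m'.degree + M = m.degree := by
          conv_rhs => rw [hmm]
          rw [map_add, Finsupp.degree_single]
        have hmon : (monomial m 1 : MvPolynomial ι A) = ∑ j, (a i j * monomial m' 1) * G j := by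
          have h1 : (monomial m 1 : MvPolynomial ι A) = monomial m' 1 * X i ^ M := by
            rw [X_pow_eq_monomial, monomial_mul, ← hmm, one_mul]
          rw [h1, ← hsum i, Finset.mul_sum]
          apply Finset.sum_congr rfl
          intro j _
          ring
        have hval : φ (monomial m 1) = ∑ j, z j • φ (a i j * monomial m' 1) := by
          rw [hmon, map_sum]
          apply Finset.sum_congr rfl
          intro j _
          funext x
          rw [map_mul, Pi.mul_apply, hφ _ x, hφ (G j) x, Pi.smul_apply, smul_eq_mul, hφ]
          have hx : aeval (x : ι → A) (G j) = z j := congrFun x.2 j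
          rw [hx, mul_comm]
        rw [hval]
        apply Submodule.sum_mem
        intro j _
        apply Submodule.smul_mem
        have hlow : (a i j * monomial m' 1).totalDegree ≤ e - 1 := by
          refine le_trans (totalDegree_mul _ _) ?_
          have h1 := ha i j
          have h2 : (monomial m' (1 : A)).totalDegree = m'.degree := by
            rw [totalDegree_monomial _ one_ne_zero]
            rfl
          rw [h2]
          omega
        have he : 1 ≤ e := by omega
        exact ih (e - 1) (by omega) _ hlow
  have key' : ∀ p, φ p ∈ W := fun p => key _ p le_rfl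
  -- each coordinate satisfies a polynomial
  have hpoly : ∀ i, ∃ P : Polynomial A, P ≠ 0 ∧ ∀ x ∈ Fb, P.eval (x i) = 0 := by
    intro i
    let n := Module.finrank A W
    let f : Fin (n + 1) → W := fun k => ⟨φ (X i ^ (k : ℕ)), key' _⟩
    have hdep : ¬ LinearIndependent A f := by
      intro hli
      have := hli.fintype_card_le_finrank
      simp [n] at this
    rw [Fintype.not_linearIndependent_iff] at hdep
    obtain ⟨g, hg, k0, hk0⟩ := hdep
    refine ⟨∑ k : Fin (n + 1), Polynomial.C (g k) * Polynomial.X ^ (k : ℕ), ?_, ?_⟩
    · intro h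
      apply hk0
      have := congrArg (fun q => Polynomial.coeff q (k0 : ℕ)) h
      simp only [Polynomial.finset_sum_coeff, Polynomial.coeff_C_mul, Polynomial.coeff_X_pow,
        Polynomial.coeff_zero] at this
      rw [Finset.sum_eq_single k0] at this
      · simpa using this
      · intro b _ hb
        rw [if_neg, mul_zero]
        intro hc
        exact hb (Fin.ext hc.symm)
      · intro h; exact absurd (Finset.mem_univ _) h
    · intro x hx
      have h1 := congrArg (fun w : W => (w : Fb → A) ⟨x, hx⟩) hg
      simp only [Submodule.coe_sum, Submodule.coe_smul, Submodule.coe_zero, Pi.zero_apply,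
        Finset.sum_apply, Pi.smul_apply, smul_eq_mul] at h1
      rw [Polynomial.eval_finset_sum]
      rw [← h1]
      apply Finset.sum_congr rfl
      intro k _
      simp only [Polynomial.eval_mul, Polynomial.eval_C, Polynomial.eval_pow, Polynomial.eval_X]
      congr 1
      change _ = φ (X i ^ (k : ℕ)) ⟨x, hx⟩
      rw [hφ, map_pow, aeval_X]
  choose P hP hPx using hpoly
  have hfin : (Set.univ.pi fun i => {t : A | (P i).eval t = 0}).Finite := by
    apply Set.Finite.pi
    intro i
    have : {t : A | (P i).eval t = 0} ⊆ ((P i).roots.toFinset : Set A) := by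
      intro t ht
      simp only [Finset.mem_coe, Multiset.mem_toFinset]
      rw [Polynomial.mem_roots (hP i)]
      exact ht
    exact (Finset.finite_toSet _).subset this
  apply hfin.subset
  intro x hx i _
  exact hPx i x hx

end fib

end Pool.Agent.H423.OA
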