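import Pool.Agent.H423.OA.Lift

/-! Lifting: a rational point whose image is congruent to a given point is congruent to a point of
the fibre which is fixed by Frobenius. -/

set_option autoImplicit false
set_option linter.all false

namespace Pool.Agent.H423.OA

open MvPolynomial NumberField IsDedekindDomain
open Pool.Agent.W401.Cheb

section poly

variable {ι τ A : Type} [Fintype τ] [Field A]

/-- product of a coordinate and of one minor for each `s` -/
noncomputable def pf (Y : τ → ι → A) (κ : ι × (τ → ι × ι)) : MvPolynomial ι A :=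
  X κ.1 * ∏ s, (C (Y s (κ.2 s).1) * X (κ.2 s).2 - C (Y s (κ.2 s).2) * X (κ.2 s).1)

theorem pf_eval (Y : τ → ι → A) (κ : ι × (τ → ι × ι)) (x : ι → A) :
    aeval x (pf Y κ) =
      x κ.1 * ∏ s, (Y s (κ.2 s).1 * x (κ.2 s).2 - Y s (κ.2 s).2 * x (κ.2 s).1) := by
  simp only [pf, map_mul, aeval_X, map_prod, map_sub, aeval_C, Algebra.algebraMap_self,
    RingHom.id_apply]

/-- a minor of `GA` and `Z` -/
noncomputable def pg (GA : ι → MvPolynomial ι A) (Z : ι → A) (p : ι × ι) : MvPolynomial ι A :=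
  GA p.1 * C (Z p.2) - GA p.2 * C (Z p.1)

theorem pg_eval (GA : ι → MvPolynomial ι A) (Z : ι → A) (p : ι × ι) (x : ι → A) :
    aeval x (pg GA Z p) = ev GA x p.1 * Z p.2 - ev GA x p.2 * Z p.1 := by
  simp only [pg, map_mul, map_sub, aeval_C, Algebra.algebraMap_self, RingHom.id_apply, ev]

theorem pf_mem [Fintype ι] [IsAlgClosed A] (GA : ι → MvPolynomial ι A) (Z : ι → A) (Y : τ → ι → A)
    (h : ∀ x : ι → A, x ≠ 0 → Par (ev GA x) Z → ∃ s, Par x (Y s)) (κ : ι × (τ → ι × ι)) :
    pf Y κ ∈ (Ideal.span (Set.range (pg GA Z))).radical := by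
  rw [← vanishingIdeal_zeroLocus_eq_radical (K := A)]
  intro x hx
  have hgx : ∀ p, aeval x (pg GA Z p) = 0 := fun p => hx _ (Ideal.subset_span ⟨p, rfl⟩)
  rw [pf_eval]
  by_cases hx0 : x = 0
  · rw [hx0]; simp
  · have h1 : Par (ev GA x) Z := by
      intro i k
      have := hgx (i, k)
      rw [pg_eval] at this
      exact sub_eq_zero.mp this
    obtain ⟨s, hs⟩ := h x hx0 h1
    have hzero : ∏ s, (Y s (κ.2 s).1 * x (κ.2 s).2 - Y s (κ.2 s).2 * x (κ.2 s).1) = 0 :=
      Finset.prod_eq_zero (Finset.mem_univ s) (sub_eq_zero.mpr (hs.symm _ _))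
    rw [hzero, mul_zero]

end poly

section fix

variable {K : Type} [Field K] [NumberField K] {ι : Type} [Fintype ι]

/-- a vector over `K` as a vector of algebraic numbers -/
noncomputable def upK (u : ι → K) : ι → AlgebraicClosure K :=
  fun i => algebraMap K (AlgebraicClosure K) (u i)

theorem upK_ne_zero {u : ι → K} (hu : u ≠ 0) : upK u ≠ 0 := by
  intro h
  apply hu
  funext i
  have := congrFun h i
  simpa [upK] using this

theorem up_ne_zero {y : ι → 𝓞 (AlgebraicClosure K)} (hy : y ≠ 0) : up y ≠ 0 := by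
  intro h
  apply hy
  funext i
  have := congrFun h i
  exact (map_eq_zero_iff _ (FaithfulSMul.algebraMap_injective (𝓞 (AlgebraicClosure K))
    (AlgebraicClosure K))).mp this

theorem cj_upK (σ : GK K) (u : ι → K) : cj σ (upK u) = upK u := by
  funext i
  exact σ.commutes (u i)

theorem par_upK {u w : ι → K} (h : Par (upK u) (upK w)) : Par u w := by
  intro i j
  apply (algebraMap K (AlgebraicClosure K)).injective
  rw [map_mul, map_mul]
  exact h i j

theorem Par.upK {u w : ι → K} (h : Par u w) : Par (upK u) (OA.upK w) := by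
  intro i j
  simp only [OA.upK]
  rw [← map_mul, ← map_mul, h i j]

theorem upK_ev (F : ι → MvPolynomial ι K) (u : ι → K) : upK (ev F u) = ev F (upK u) := by
  funext i
  exact comp_aeval_apply _ (Algebra.ofId K (AlgebraicClosure K)) (F i)

theorem upK_it (F : ι → MvPolynomial ι K) (u : ι → K) (k : ℕ) :
    upK ((ev F)^[k] u) = (ev F)^[k] (upK u) := by
  induction k with
  | zero => rfl
  | succ k ih => rw [Function.iterate_succ_apply', upK_ev, ih, ← Function.iterate_succ_apply' (ev F)]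

/-- integral representatives of the points of a fibre -/
theorem fib_reps {F : ι → MvPolynomial ι K} {D : ℕ} (hD : 1 ≤ D)
    (hF : ∀ i, (F i).IsHomogeneous D) (h0 : ∀ x : ι → AlgebraicClosure K, ev F x = 0 → x = 0)
    (z : ι → AlgebraicClosure K) (hz : z ≠ 0) :
    ∃ (τ : Type) (_ : Fintype τ) (y : τ → ι → 𝓞 (AlgebraicClosure K)),
      (∀ s, y s ≠ 0 ∧ Par (ev F (up (y s))) z) ∧
      ∀ x : ι → AlgebraicClosure K, x ≠ 0 → Par (ev F x) z → ∃ s, Par x (up (y s)) := by
  classical
  let FA : ι → MvPolynomial ι (AlgebraicClosure K) :=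
    fun i => MvPolynomial.map (algebraMap K (AlgebraicClosure K)) (F i)
  have hFA : ∀ x : ι → AlgebraicClosure K, ev FA x = ev F x := by
    intro x
    funext i
    exact aeval_map_algebraMap _ _ _
  have hfin := fin_fib FA D hD (fun i => (hF i).map _) (fun x hx => h0 x (by rw [← hFA]; exact hx)) z
  have hne : ∀ x : {x : ι → AlgebraicClosure K | ev FA x = z}, (x : ι → AlgebraicClosure K) ≠ 0 := by
    rintro ⟨x, hx⟩ h
    simp only at h
    subst h
    apply hz
    rw [← (show ev FA 0 = z from hx), hFA]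
    have := ev_smul hF (0 : AlgebraicClosure K) (0 : ι → AlgebraicClosure K)
    rw [zero_smul, zero_pow (by omega), zero_smul] at this
    exact this
  have h1 := fun x : {x : ι → AlgebraicClosure K | ev FA x = z} =>
    exists_glob (x : ι → AlgebraicClosure K) (hne x)
  choose y hy0 hy using h1
  haveI := hfin.fintype
  refine ⟨{x : ι → AlgebraicClosure K | ev FA x = z}, inferInstance, y, fun s => ⟨hy0 s, ?_⟩, ?_⟩
  · have h2 : Par (up (y s)) (s : ι → AlgebraicClosure K) := (hy s).symm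
    have h3 := Par.ev hF (up_ne_zero (hy0 s)) (hne s) h2
    have h4 : ev F (s : ι → AlgebraicClosure K) = z := by rw [← hFA]; exact s.2
    rw [h4] at h3
    exact h3
  · intro x hx hxz
    obtain ⟨t, ht, htz⟩ := (par_iff (ev_ne_zero h0 hx) hz).mp hxz
    obtain ⟨μ, hμ⟩ := IsAlgClosed.exists_pow_nat_eq t (by omega : 0 < D)
    have hμ0 : μ ≠ 0 := by
      intro h; rw [h, zero_pow (by omega)] at hμ; exact ht hμ.symm
    have h2 : ev FA (μ • x) = z := by
      rw [hFA, ev_smul hF, hμ, htz]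
    refine ⟨⟨μ • x, h2⟩, ?_⟩
    have h3 := hy ⟨μ • x, h2⟩
    exact Par.trans (smul_ne_zero hμ0 hx) (par_smul μ x) h3

theorem up_cj (σ : GK K) (y : ι → 𝓞 (AlgebraicClosure K)) :
    up (fun i => σ • y i) = cj σ (up y) := rfl

/-- **Lifting.** -/
theorem lift_fix {F : ι → MvPolynomial ι K} {G : ι → MvPolynomial ι (𝓞 K)} {D : ℕ} (hD : 1 ≤ D)
    (hF : ∀ i, (F i).IsHomogeneous D) (h0 : ∀ x : ι → AlgebraicClosure K, ev F x = 0 → x = 0)
    (hM : Model F G) (z : ι → K) (hz : z ≠ 0) :
    AA (K := K) (fun Q => ∀ (σ : GK K) (q : ℕ),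
      (∀ x : 𝓞 (AlgebraicClosure K), σ • x - x ^ q ∈ Q) →
      ∀ u : ι → K, u ≠ 0 →
      (∃ b : ι → 𝓞 K, Rep Q (upK u) (fun i => algebraMap (𝓞 K) (𝓞 (AlgebraicClosure K)) (b i))) →
      Cg Q (ev F (upK u)) (upK z) →
      ∃ x : ι → AlgebraicClosure K, x ≠ 0 ∧ Par (ev F x) (upK z) ∧ Par (cj σ x) x ∧
        Cg Q x (upK u)) := by
  classical
  obtain ⟨τ, hτ, y, hy, hall⟩ := fib_reps hD hF h0 (upK z) (upK_ne_zero hz)
  obtain ⟨z', hz'0, hz'⟩ := exists_glob (upK z) (upK_ne_zero hz)
  obtain ⟨c, hc, hcF⟩ := hM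
  have hM : Model F G := ⟨c, hc, hcF⟩
  -- `G` has no zero
  have hG0 : ∀ x : ι → AlgebraicClosure K, ev G x = 0 → x = 0 := by
    intro x hx
    apply h0
    have h1 : ev G x = algebraMap K (AlgebraicClosure K) c • ev F x := by
      funext i
      simp only [ev, Pi.smul_apply, smul_eq_mul]
      rw [← aeval_map_algebraMap K, hcF i, map_mul, aeval_C]
    rw [h1] at hx
    rcases smul_eq_zero.mp hx with h | h
    · exact absurd ((map_eq_zero _).mp h) hc
    · exact h
  have hGF : ∀ x : ι → AlgebraicClosure K, ev G x = algebraMap K (AlgebraicClosure K) c • ev F x := by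
    intro x
    funext i
    simp only [ev, Pi.smul_apply, smul_eq_mul]
    rw [← aeval_map_algebraMap K, hcF i, map_mul, aeval_C]
  have hc' : algebraMap K (AlgebraicClosure K) c ≠ 0 := by rwa [Ne, map_eq_zero]
  let GA : ι → MvPolynomial ι (AlgebraicClosure K) :=
    fun i => MvPolynomial.map (algebraMap (𝓞 K) (AlgebraicClosure K)) (G i)
  have hGA : ∀ (x : ι → AlgebraicClosure K), ev GA x = ev G x := by
    intro x
    funext i
    exact aeval_map_algebraMap _ _ _
  have hnull : ∀ κ, pf (fun s => up (y s)) κ ∈ (Ideal.span (Set.range (pg GA (up z')))).radical := by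
    apply pf_mem
    intro x hx0 h1
    rw [hGA] at h1
    have h2 : Par (ev F x) (ev G x) := by rw [hGF]; exact par_smul _ _
    have h3 : Par (up z') (upK z) := hz'.symm
    have h4 : ev G x ≠ 0 := fun h => hx0 (hG0 x h)
    have h5 : Par (ev G x) (upK z) := Par.trans (up_ne_zero hz'0) h1 h3
    exact hall x hx0 (Par.trans h4 h2 h5)
  have hN := AA.all (fun κ => null_mod (K := K) (pg GA (up z')) (pf (fun s => up (y s)) κ) (hnull κ))
  have hgood := aa_good (K := K) hG0
  have hzv := aa_vec (K := K) z' hz'0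
  have hyv := AA.all (fun s => aa_vec (K := K) (y s) (hy s).1)
  have hdis : AA (K := K) (fun Q => ∀ p : τ × τ, ¬ Par (y p.1) (y p.2) → ¬ Min Q (y p.1) (y p.2)) := by
    apply AA.all
    intro p
    by_cases h : Par (y p.1) (y p.2)
    · exact AA.of_forall (fun Q _ h' => absurd h h')
    · exact (aa_not_min _ _ h).mono (fun Q _ h' _ => h')
  refine ((hN.and hgood).and (hzv.and (hyv.and hdis))).mono ?_
  rintro Q hQ ⟨⟨hN, hgood⟩, hzv, hyv, hdis⟩ σ q hσ u hu ⟨b0, hb⟩ hcg
  haveI := hQ
  haveI := hQ.isPrime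
  set b : ι → 𝓞 (AlgebraicClosure K) := fun i => algebraMap (𝓞 K) (𝓞 (AlgebraicClosure K)) (b0 i)
    with hbdef
  have hu' := upK_ne_zero hu
  have hFu : ev F (upK u) ≠ 0 := ev_ne_zero h0 hu'
  have hmin : Min Q (ev G b) z' :=
    Cg.min hFu (upK_ne_zero hz) (hb.ev hF hM hgood hu') ⟨hzv, hz'⟩ hcg
  obtain ⟨i0, hi0⟩ := hb.1
  -- one of the points of the fibre is congruent to `u`
  have hex : ∃ s, Min Q (y s) b := by
    by_contra hcon
    push Not at hcon
    have h1 : ∀ s, ∃ p : ι × ι, y s p.1 * b p.2 - y s p.2 * b p.1 ∉ Q := by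
      intro s
      have := hcon s
      unfold Min at this
      push Not at this
      obtain ⟨i, k, h⟩ := this
      exact ⟨(i, k), h⟩
    choose p hp using h1
    have h2 := hN (i0, p) b (by
      intro t
      refine ⟨ev G b t.1 * z' t.2 - ev G b t.2 * z' t.1, hmin t.1 t.2, ?_⟩
      have e : ∀ i, algebraMap (𝓞 (AlgebraicClosure K)) (AlgebraicClosure K) (ev G b i) =
          ev G (up b) i := fun i => aeval_coe (G i) b
      rw [pg_eval, hGA, map_sub, map_mul, map_mul, e, e]; try rfl)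
      (b i0 * ∏ s, (y s (p s).1 * b (p s).2 - y s (p s).2 * b (p s).1)) (by
      rw [pf_eval, map_mul, map_prod]
      simp only [map_sub, map_mul]
      rfl)
    rcases hQ.isPrime.mem_or_mem h2 with h | h
    · exact hi0 h
    · rw [hQ.isPrime.prod_mem_iff] at h
      obtain ⟨s, -, hs⟩ := h
      exact hp s hs
  obtain ⟨s, hs⟩ := hex
  have hys0 : up (y s) ≠ 0 := up_ne_zero (hy s).1
  have hrepy : Rep Q (up (y s)) (y s) := ⟨hyv s, Par.refl _⟩
  refine ⟨up (y s), hys0, (hy s).2, ?_, ⟨y s, b, hrepy, hb, hs⟩⟩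
  -- the point is fixed
  have hcjne : cj σ (up (y s)) ≠ 0 := cj_ne_zero σ hys0
  have hcjfib : Par (ev F (cj σ (up (y s)))) (upK z) := by
    have h1 := (hy s).2.cj σ
    rw [cj_ev, cj_upK] at h1
    exact h1
  obtain ⟨r, hr⟩ := hall _ hcjne hcjfib
  -- minors of `σ y_s` and `b`
  letI := Ideal.Quotient.field Q
  have hbq : ∀ i, Ideal.Quotient.mk Q (b i) ^ q = Ideal.Quotient.mk Q (b i) := by
    intro i
    have h1 := hσ (b i)
    have h2 : σ • b i = b i := by
      apply RingOfIntegers.ext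
      exact σ.commutes _
    rw [h2] at h1
    rw [← map_pow]
    exact (Ideal.Quotient.eq.mpr h1).symm
  have hyq : ∀ i, Ideal.Quotient.mk Q (σ • y s i) = Ideal.Quotient.mk Q (y s i) ^ q := by
    intro i
    rw [← map_pow]
    exact Ideal.Quotient.eq.mpr (hσ (y s i))
  have hmin2 : Min Q (fun i => σ • y s i) b := by
    rw [min_iff]
    intro i k
    have h1 := (min_iff (Q := Q) (y s) b).mp hs i k
    simp only at h1 ⊢
    rw [hyq, hyq, ← hbq k, ← hbq i, ← mul_pow, ← mul_pow]
    rw [h1]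
  have hpar2 : Par (fun i => σ • y s i) (y r) := by
    apply par_of_map (L := AlgebraicClosure K)
    exact hr
  have hσy : ∃ i, σ • y s i ∉ Q := by
    obtain ⟨i, hi⟩ := hyv s
    refine ⟨i, fun h => hi ?_⟩
    have h1 := hyq i
    rw [(Ideal.Quotient.eq_zero_iff_mem).mpr h] at h1
    by_cases hq0 : q = 0
    · subst hq0
      rw [pow_zero] at h1
      exact absurd h1 zero_ne_one
    · exact (Ideal.Quotient.eq_zero_iff_mem).mp (eq_zero_of_pow_eq_zero h1.symm)
  have hmin3 : Min Q (y r) (y s) :=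
    Min.trans hσy hpar2.symm.min (Min.trans hb.1 hmin2 hs.symm)
  have hpar4 : Par (y r) (y s) := by
    by_contra hcon
    exact hdis (r, s) hcon hmin3
  refine Par.trans (up_ne_zero (hy r).1) hr ?_
  intro i k
  simp only [up]
  rw [← map_mul, ← map_mul, hpar4 i k]

end fix

end Pool.Agent.H423.OA
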