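import Pool.Agent.H423.OA.Rep

/-! Good reduction preserves congruence; points fixed by a Frobenius element are periodic modulo a
prime after few steps. -/

set_option autoImplicit false
set_option linter.all false

namespace Pool.Agent.H423.OA

open MvPolynomial NumberField IsDedekindDomain
open Pool.Agent.W401.Cheb

/-- `G` is a form of `F` with coefficients in `R`: `G i = c F i` -/
def Model {ι R L : Type} [CommRing R] [Field L] [Algebra R L] (F : ι → MvPolynomial ι L)
    (G : ι → MvPolynomial ι R) : Prop :=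
  ∃ c : L, c ≠ 0 ∧ ∀ i, MvPolynomial.map (algebraMap R L) (G i) = C c * F i

/-- the reduction of `G` modulo the ideal `Q` of the extension `S` has no zero -/
def Good {ι R S : Type} [CommRing R] [CommRing S] [Algebra R S] (G : ι → MvPolynomial ι R)
    (Q : Ideal S) : Prop :=
  ∀ b : ι → S, (∀ i, ev G b i ∈ Q) → ∀ i, b i ∈ Q

section general

variable {ι R K S A : Type} [Fintype ι] [CommRing R] [Field K] [Algebra R K]
  [CommRing S] [IsDomain S] [Field A] [Algebra R S] [Algebra K A] [Algebra S A] [FaithfulSMul S A]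
  [Algebra R A] [IsScalarTower R S A] [IsScalarTower R K A]

theorem ev_model {F : ι → MvPolynomial ι K} {G : ι → MvPolynomial ι R} (c : K)
    (hc : ∀ i, MvPolynomial.map (algebraMap R K) (G i) = C c * F i) (b : ι → S) :
    (fun i => algebraMap S A (ev G b i)) =
      algebraMap K A c • ev F (fun i => algebraMap S A (b i)) := by
  funext i
  simp only [ev, Pi.smul_apply, smul_eq_mul]
  have h1 : algebraMap S A (aeval b (G i)) = aeval (fun i => algebraMap S A (b i)) (G i) := by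
    exact comp_aeval_apply _ (IsScalarTower.toAlgHom R S A) (G i)
  rw [h1, ← aeval_map_algebraMap K, hc i, map_mul, aeval_C]

theorem ev_ne_zero {F : ι → MvPolynomial ι K} (h0 : ∀ x : ι → A, ev F x = 0 → x = 0)
    {x : ι → A} (hx : x ≠ 0) : ev F x ≠ 0 := fun h => hx (h0 x h)

theorem it_ne_zero {F : ι → MvPolynomial ι K} (h0 : ∀ x : ι → A, ev F x = 0 → x = 0)
    {x : ι → A} (hx : x ≠ 0) (k : ℕ) : (ev F)^[k] x ≠ 0 := by
  induction k with
  | zero => exact hx
  | succ k ih =>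
    rw [Function.iterate_succ_apply']
    exact ev_ne_zero h0 ih

theorem par_smul (t : A) (x : ι → A) : Par x (t • x) := by
  intro i j
  simp only [Pi.smul_apply, smul_eq_mul]; ring

/-- proportional vectors are mapped to proportional vectors -/
theorem Par.ev {F : ι → MvPolynomial ι K} {d : ℕ} (hF : ∀ i, (F i).IsHomogeneous d)
    {x y : ι → A} (hx : x ≠ 0) (hy : y ≠ 0) (h : Par x y) : Par (ev F x) (OA.ev F y) := by
  obtain ⟨t, ht, rfl⟩ := (par_iff hx hy).mp h
  rw [ev_smul hF]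
  exact par_smul _ _

theorem Par.it {F : ι → MvPolynomial ι K} {d : ℕ} (hF : ∀ i, (F i).IsHomogeneous d)
    (h0 : ∀ x : ι → A, OA.ev F x = 0 → x = 0)
    {x y : ι → A} (hx : x ≠ 0) (hy : y ≠ 0) (h : Par x y) (k : ℕ) :
    Par ((OA.ev F)^[k] x) ((OA.ev F)^[k] y) := by
  induction k with
  | zero => exact h
  | succ k ih =>
    rw [Function.iterate_succ_apply', Function.iterate_succ_apply']
    exact Par.ev hF (it_ne_zero h0 hx k) (it_ne_zero h0 hy k) ih

theorem Rep.ev {F : ι → MvPolynomial ι K} {G : ι → MvPolynomial ι R} {d : ℕ}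
    (hF : ∀ i, (F i).IsHomogeneous d) (hM : Model F G) {Q : Ideal S} (hG : Good G Q)
    {x : ι → A} (hx : x ≠ 0) {a : ι → S} (h : Rep Q x a) : Rep Q (ev F x) (OA.ev G a) := by
  constructor
  · by_contra hcon
    push Not at hcon
    obtain ⟨i, hi⟩ := h.1
    exact hi (hG a hcon i)
  · obtain ⟨c, hc, hcF⟩ := hM
    rw [ev_model (A := A) c hcF a]
    obtain ⟨t, ht, hta⟩ := (par_iff hx h.ne_zero).mp h.2
    rw [hta, ev_smul hF, smul_smul]
    exact par_smul _ _

theorem Rep.it {F : ι → MvPolynomial ι K} {G : ι → MvPolynomial ι R} {d : ℕ}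
    (hF : ∀ i, (F i).IsHomogeneous d) (h0 : ∀ x : ι → A, OA.ev F x = 0 → x = 0)
    (hM : Model F G) {Q : Ideal S} (hG : Good G Q)
    {x : ι → A} (hx : x ≠ 0) {a : ι → S} (h : Rep Q x a) (k : ℕ) :
    Rep Q ((OA.ev F)^[k] x) ((OA.ev G)^[k] a) := by
  induction k with
  | zero => exact h
  | succ k ih =>
    rw [Function.iterate_succ_apply', Function.iterate_succ_apply']
    exact Rep.ev hF hM hG (it_ne_zero h0 hx k) ih

theorem min_iff {Q : Ideal S} (a b : ι → S) :
    Min Q a b ↔ Par (fun i => Ideal.Quotient.mk Q (a i)) (fun i => Ideal.Quotient.mk Q (b i)) := by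
  constructor
  · intro h i j
    rw [← map_mul, ← map_mul, Ideal.Quotient.eq]
    exact h i j
  · intro h i j
    have := h i j
    rw [← map_mul, ← map_mul, Ideal.Quotient.eq] at this
    exact this

theorem mk_ne_zero {Q : Ideal S} {a : ι → S} (h : ∃ i, a i ∉ Q) :
    (fun i => Ideal.Quotient.mk Q (a i)) ≠ 0 := by
  obtain ⟨i, hi⟩ := h
  intro h0
  apply hi
  have := congrFun h0 i
  rwa [Pi.zero_apply, Ideal.Quotient.eq_zero_iff_mem] at this

theorem min_ev {G : ι → MvPolynomial ι R} {d : ℕ} (hG : ∀ i, (G i).IsHomogeneous d)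
    {Q : Ideal S} [hQ : Q.IsMaximal] {a b : ι → S} (ha : ∃ i, a i ∉ Q) (hb : ∃ i, b i ∉ Q)
    (h : Min Q a b) : Min Q (ev G a) (ev G b) := by
  letI := Ideal.Quotient.field Q
  rw [min_iff] at h ⊢
  have e : ∀ a : ι → S, (fun i => Ideal.Quotient.mk Q (ev G a i)) =
      ev G (fun i => Ideal.Quotient.mk Q (a i)) := by
    intro a
    funext i
    exact comp_aeval_apply _ (Ideal.Quotient.mkₐ R Q) (G i)
  rw [e, e]
  obtain ⟨t, ht, hta⟩ := (par_iff (mk_ne_zero ha) (mk_ne_zero hb)).mp h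
  rw [hta, ev_smul hG]
  intro i j
  simp only [Pi.smul_apply, smul_eq_mul]; ring

theorem Cg.ev {F : ι → MvPolynomial ι K} {G : ι → MvPolynomial ι R} {d : ℕ}
    (hF : ∀ i, (F i).IsHomogeneous d) (hGh : ∀ i, (G i).IsHomogeneous d)
    (hM : Model F G) {Q : Ideal S} [Q.IsMaximal] (hG : Good G Q)
    {x y : ι → A} (hx : x ≠ 0) (hy : y ≠ 0) (h : Cg Q x y) : Cg Q (ev F x) (OA.ev F y) := by
  obtain ⟨a, b, ha, hb, hm⟩ := h
  exact ⟨OA.ev G a, OA.ev G b, ha.ev hF hM hG hx, hb.ev hF hM hG hy, min_ev hGh ha.1 hb.1 hm⟩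

theorem Cg.it {F : ι → MvPolynomial ι K} {G : ι → MvPolynomial ι R} {d : ℕ}
    (hF : ∀ i, (F i).IsHomogeneous d) (hGh : ∀ i, (G i).IsHomogeneous d)
    (h0 : ∀ x : ι → A, OA.ev F x = 0 → x = 0)
    (hM : Model F G) {Q : Ideal S} [Q.IsMaximal] (hG : Good G Q)
    {x y : ι → A} (hx : x ≠ 0) (hy : y ≠ 0) (h : Cg Q x y) (k : ℕ) :
    Cg Q ((OA.ev F)^[k] x) ((OA.ev F)^[k] y) := by
  induction k with
  | zero => exact h
  | succ k ih =>
    rw [Function.iterate_succ_apply', Function.iterate_succ_apply']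
    exact Cg.ev hF hGh hM hG (it_ne_zero h0 hx k) (it_ne_zero h0 hy k) ih

end general

section frob

variable {K : Type} [Field K] [NumberField K] {ι : Type} [Fintype ι]

/-- conjugate of a point -/
noncomputable def cj (σ : GK K) (x : ι → AlgebraicClosure K) : ι → AlgebraicClosure K := fun i => σ (x i)

theorem cj_ne_zero (σ : GK K) {x : ι → AlgebraicClosure K} (hx : x ≠ 0) : cj σ x ≠ 0 := by
  intro h
  apply hx
  funext i
  have := congrFun h i
  simp only [cj, Pi.zero_apply, EmbeddingLike.map_eq_zero_iff] at this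
  exact this

theorem Par.cj (σ : GK K) {x y : ι → AlgebraicClosure K} (h : Par x y) :
    Par (cj σ x) (OA.cj σ y) := by
  intro i j
  simp only [OA.cj]
  rw [← map_mul, ← map_mul, h i j]

theorem cj_ev (σ : GK K) (F : ι → MvPolynomial ι K) (x : ι → AlgebraicClosure K) :
    cj σ (ev F x) = ev F (cj σ x) := by
  funext i
  exact comp_aeval_apply _ (σ : AlgebraicClosure K →ₐ[K] AlgebraicClosure K) (F i)

/-- a fixed point of `σ` has fixed images -/
theorem fixed_it (σ : GK K) {F : ι → MvPolynomial ι K} {d : ℕ} (hF : ∀ i, (F i).IsHomogeneous d)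
    (h0 : ∀ x : ι → AlgebraicClosure K, ev F x = 0 → x = 0)
    {x : ι → AlgebraicClosure K} (hx : x ≠ 0) (h : Par (cj σ x) x) (k : ℕ) :
    Par (cj σ ((ev F)^[k] x)) ((ev F)^[k] x) := by
  induction k with
  | zero => exact h
  | succ k ih =>
    rw [Function.iterate_succ_apply', cj_ev]
    exact Par.ev hF (cj_ne_zero σ (it_ne_zero h0 hx k)) (it_ne_zero h0 hx k) ih

/-- reduction of representatives of a point fixed by Frobenius -/
theorem red_fixed {v : HeightOneSpectrum (𝓞 K)} {Q : Ideal (𝓞 (AlgebraicClosure K))}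
    [hQ : Q.IsMaximal] {σ : GK K} (q : ℕ)
    (hσ : ∀ x : 𝓞 (AlgebraicClosure K), σ • x - x ^ q ∈ Q)
    {x : ι → AlgebraicClosure K} (hx : x ≠ 0) (h : Par (cj σ x) x)
    {a : ι → 𝓞 (AlgebraicClosure K)} (ha : Rep Q x a) :
    ∃ u : ι → 𝓞 (AlgebraicClosure K) ⧸ Q, (∀ i, u i ^ q = u i) ∧ u ≠ 0 ∧
      Par u (fun i => Ideal.Quotient.mk Q (a i)) := by
  letI := Ideal.Quotient.field Q
  have h1 : Par (fun i => σ • a i) a := by
    apply par_of_map (L := AlgebraicClosure K)
    have h2 : Par (cj σ x) (cj σ (fun i => algebraMap _ (AlgebraicClosure K) (a i))) := ha.2.cj σ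
    exact Par.trans (cj_ne_zero σ hx) h2.symm (Par.trans hx h ha.2)
  obtain ⟨i0, hi0⟩ := ha.1
  have hq : ∀ i, Ideal.Quotient.mk Q (σ • a i) = (Ideal.Quotient.mk Q (a i)) ^ q := by
    intro i
    rw [← map_pow, Ideal.Quotient.eq]
    exact hσ (a i)
  have hb0 : Ideal.Quotient.mk Q (a i0) ≠ 0 := by
    rwa [Ne, Ideal.Quotient.eq_zero_iff_mem]
  have h3 : ∀ i, (Ideal.Quotient.mk Q (a i)) ^ q * Ideal.Quotient.mk Q (a i0) =
      (Ideal.Quotient.mk Q (a i0)) ^ q * Ideal.Quotient.mk Q (a i) := by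
    intro i
    rw [← hq, ← hq, ← map_mul, ← map_mul]
    exact congrArg _ (h1 i i0)
  refine ⟨fun i => Ideal.Quotient.mk Q (a i) / Ideal.Quotient.mk Q (a i0), fun i => ?_, ?_, ?_⟩
  · rw [div_pow, div_eq_div_iff (pow_ne_zero _ hb0) hb0, h3 i, mul_comm]
  · intro hc
    have := congrFun hc i0
    simp only [Pi.zero_apply, div_self hb0] at this
    exact one_ne_zero this
  · intro i j
    simp only
    rw [div_mul_eq_mul_div, div_mul_eq_mul_div, mul_comm]

/-- **Points fixed by a Frobenius element.** -/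
theorem frob_periodic {v : HeightOneSpectrum (𝓞 K)} {Q : Ideal (𝓞 (AlgebraicClosure K))}
    [hQ : Q.IsMaximal]
    (hQv : Q.comap (algebraMap (𝓞 K) (𝓞 (AlgebraicClosure K))) = v.asIdeal)
    {σ : GK K} (q : ℕ) (hq : 1 < q)
    (hσ : ∀ x : 𝓞 (AlgebraicClosure K), σ • x - x ^ q ∈ Q)
    {F : ι → MvPolynomial ι K} {G : ι → MvPolynomial ι (𝓞 K)} {d : ℕ}
    (hF : ∀ i, (F i).IsHomogeneous d) (hGh : ∀ i, (G i).IsHomogeneous d)
    (h0 : ∀ x : ι → AlgebraicClosure K, ev F x = 0 → x = 0)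
    (hM : Model F G) (hG : Good G Q)
    {x : ι → AlgebraicClosure K} (hx : x ≠ 0) (h : Par (cj σ x) x) (n : ℕ)
    (hn : q ^ Fintype.card ι ≤ n) :
    ∃ t : ℕ, 1 ≤ t ∧ Cg Q ((ev F)^[t] ((ev F)^[n] x)) ((ev F)^[n] x) := by
  classical
  letI := Ideal.Quotient.field Q
  obtain ⟨a, ha⟩ := exists_rep Q (vp_closure v Q hQ.isPrime hQv) x hx
  have hrep : ∀ k, Rep Q ((ev F)^[k] x) ((ev G)^[k] a) := fun k => ha.it hF h0 hM hG hx k
  have hu := fun k => red_fixed (v := v) q hσ (it_ne_zero h0 hx k)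
    (fixed_it σ hF h0 hx h k) (hrep k)
  choose u hu1 hu2 hu3 using hu
  let S : Finset (𝓞 (AlgebraicClosure K) ⧸ Q) :=
    (Polynomial.X ^ q - Polynomial.X : Polynomial (𝓞 (AlgebraicClosure K) ⧸ Q)).roots.toFinset
  have hne : (Polynomial.X ^ q - Polynomial.X : Polynomial (𝓞 (AlgebraicClosure K) ⧸ Q)) ≠ 0 :=
    FiniteField.X_pow_card_sub_X_ne_zero _ hq
  have hS : S.card ≤ q := by
    calc _ ≤ Multiset.card _ := Multiset.toFinset_card_le _
      _ ≤ _ := Polynomial.card_roots' _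
      _ = q := FiniteField.X_pow_card_sub_X_natDegree_eq _ hq
  have hmem : ∀ k, u k ∈ Fintype.piFinset (fun _ : ι => S) := by
    intro k
    rw [Fintype.mem_piFinset]
    intro i
    rw [Multiset.mem_toFinset, Polynomial.mem_roots hne]
    simp [Polynomial.IsRoot.def, hu1 k i]
  have hcard : (Fintype.piFinset (fun _ : ι => S)).card < (Finset.range (n + 1)).card := by
    rw [Fintype.card_piFinset, Finset.prod_const, Finset.card_univ, Finset.card_range]
    exact lt_of_le_of_lt (le_trans (Nat.pow_le_pow_left hS _) hn) (Nat.lt_succ_self n)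
  obtain ⟨i, hi, j, hj, hij, heq⟩ := Finset.exists_ne_map_eq_of_card_lt_of_maps_to hcard
    (f := u) (fun k _ => hmem k)
  -- symmetric in i j
  have main : ∀ i j : ℕ, i < j → j ≤ n → u i = u j →
      ∃ t : ℕ, 1 ≤ t ∧ Cg Q ((ev F)^[t] ((ev F)^[n] x)) ((ev F)^[n] x) := by
    intro i j hij hj heq
    have hmin : Min Q ((ev G)^[j] a) ((ev G)^[i] a) := by
      rw [min_iff]
      refine Par.trans (hu2 j) (hu3 j).symm ?_
      rw [← heq]
      exact hu3 i
    have hcg : Cg Q ((ev F)^[j] x) ((ev F)^[i] x) := ⟨_, _, hrep j, hrep i, hmin⟩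
    have h1 := Cg.it hF hGh h0 hM hG (it_ne_zero h0 hx j) (it_ne_zero h0 hx i) hcg (n - i)
    refine ⟨j - i, by omega, ?_⟩
    rw [← Function.iterate_add_apply, ← Function.iterate_add_apply] at h1
    rw [← Function.iterate_add_apply]
    have e1 : n - i + j = j - i + n := by omega
    have e2 : n - i + i = n := by omega
    rw [e1, e2] at h1
    exact h1
  rw [Finset.mem_range] at hi hj
  rcases lt_or_gt_of_ne hij with h' | h'
  · exact main i j h' (by omega) heq
  · exact main j i h' (by omega) heq.symm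

end frob

end Pool.Agent.H423.OA
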