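import Pool.Agent.H423.OA.Frob

/-! Properties which hold at almost all primes; lifting points of a fibre. -/

set_option autoImplicit false
set_option linter.all false

namespace Pool.Agent.H423.OA

open MvPolynomial NumberField IsDedekindDomain
open Pool.Agent.W401.Cheb

section aa

variable {K : Type} [Field K] [NumberField K]

/-- `T` holds at all maximal ideals outside finitely many primes of `K` -/
def AA (T : Ideal (𝓞 (AlgebraicClosure K)) → Prop) : Prop :=
  ∃ c : 𝓞 K, c ≠ 0 ∧ ∀ Q : Ideal (𝓞 (AlgebraicClosure K)), Q.IsMaximal →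
    algebraMap (𝓞 K) (𝓞 (AlgebraicClosure K)) c ∉ Q → T Q

theorem AA.mono {T T' : Ideal (𝓞 (AlgebraicClosure K)) → Prop} (h : AA T)
    (hT : ∀ Q, Q.IsMaximal → T Q → T' Q) : AA T' := by
  obtain ⟨c, hc, h⟩ := h
  exact ⟨c, hc, fun Q hQ hcQ => hT Q hQ (h Q hQ hcQ)⟩

theorem AA.and {T T' : Ideal (𝓞 (AlgebraicClosure K)) → Prop} (h : AA T) (h' : AA T') :
    AA (fun Q => T Q ∧ T' Q) := by
  obtain ⟨c, hc, h⟩ := h
  obtain ⟨c', hc', h'⟩ := h'
  refine ⟨c * c', mul_ne_zero hc hc', fun Q hQ hcQ => ?_⟩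
  rw [map_mul] at hcQ
  exact ⟨h Q hQ (fun hc => hcQ (Q.mul_mem_right _ hc)), h' Q hQ (fun hc => hcQ (Q.mul_mem_left _ hc))⟩

theorem AA.all {τ : Type} [Finite τ] {T : τ → Ideal (𝓞 (AlgebraicClosure K)) → Prop}
    (h : ∀ t, AA (T t)) : AA (fun Q => ∀ t, T t Q) := by
  classical
  cases nonempty_fintype τ
  choose c hc h using h
  refine ⟨∏ t, c t, Finset.prod_ne_zero_iff.mpr (fun t _ => hc t), fun Q hQ hcQ t => ?_⟩
  apply h t Q hQ
  intro hct
  apply hcQ
  rw [map_prod, ← Finset.mul_prod_erase _ _ (Finset.mem_univ t)]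
  exact Q.mul_mem_right _ hct

theorem AA.of_forall {T : Ideal (𝓞 (AlgebraicClosure K)) → Prop} (h : ∀ Q, Q.IsMaximal → T Q) :
    AA T := ⟨1, one_ne_zero, fun Q hQ _ => h Q hQ⟩

theorem aa_notMem (a : 𝓞 (AlgebraicClosure K)) (ha : a ≠ 0) : AA (fun Q => a ∉ Q) := by
  have hint : IsIntegral (𝓞 K) a := Algebra.IsIntegral.isIntegral a
  have h := Ideal.comap_ne_bot_of_integral_mem (I := Ideal.span {a}) ha
    (Ideal.mem_span_singleton_self a) hint
  obtain ⟨c, hc, hc0⟩ := Submodule.exists_mem_ne_zero_of_ne_bot h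
  refine ⟨c, hc0, fun Q hQ hcQ haQ => hcQ ?_⟩
  rw [Ideal.mem_comap, Ideal.mem_span_singleton] at hc
  obtain ⟨k, hk⟩ := hc
  rw [hk]
  exact Q.mul_mem_right _ haQ

theorem aa_vec {ι : Type} (a : ι → 𝓞 (AlgebraicClosure K)) (ha : a ≠ 0) :
    AA (fun Q => ∃ i, a i ∉ Q) := by
  obtain ⟨i, hi⟩ := Function.ne_iff.mp ha
  exact (aa_notMem (a i) hi).mono (fun Q _ h => ⟨i, h⟩)

theorem aa_not_min {ι : Type} (a b : ι → 𝓞 (AlgebraicClosure K)) (h : ¬ Par a b) :
    AA (fun Q => ¬ Min Q a b) := by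
  unfold Par at h
  push Not at h
  obtain ⟨i, j, hij⟩ := h
  exact (aa_notMem (a i * b j - a j * b i) (sub_ne_zero.mpr hij)).mono
    (fun Q _ h hm => h (hm i j))

/-- a common denominator -/
theorem exists_den (s : Finset (AlgebraicClosure K)) : ∃ c : 𝓞 K, c ≠ 0 ∧ ∀ x ∈ s,
    ∃ a : 𝓞 (AlgebraicClosure K), algebraMap (𝓞 (AlgebraicClosure K)) (AlgebraicClosure K) a =
      algebraMap (𝓞 K) (AlgebraicClosure K) c * x := by
  haveI : Algebra.IsAlgebraic (𝓞 K) (AlgebraicClosure K) :=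
    (IsFractionRing.comap_isAlgebraic_iff (A := 𝓞 K) (K := K) (C := AlgebraicClosure K)).mpr
      inferInstance
  obtain ⟨y, hy, h⟩ := Algebra.IsAlgebraic.exists_integral_multiples (𝓞 K) s
  refine ⟨y, hy, fun x hx => ?_⟩
  have h1 := h x hx
  have h2 : IsIntegral ℤ (y • x) := isIntegral_trans (R := ℤ) (A := 𝓞 K) _ h1
  refine ⟨⟨y • x, h2⟩, ?_⟩
  rw [← Algebra.smul_def]
  rfl

/-- global integral coordinates -/
theorem exists_glob {ι : Type} [Fintype ι] (x : ι → AlgebraicClosure K) (hx : x ≠ 0) :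
    ∃ a : ι → 𝓞 (AlgebraicClosure K), a ≠ 0 ∧
      Par x (fun i => algebraMap (𝓞 (AlgebraicClosure K)) (AlgebraicClosure K) (a i)) := by
  classical
  obtain ⟨c, hc, h⟩ := exists_den (K := K) (Finset.univ.image x)
  have h' : ∀ i, ∃ a : 𝓞 (AlgebraicClosure K),
      algebraMap (𝓞 (AlgebraicClosure K)) (AlgebraicClosure K) a =
      algebraMap (𝓞 K) (AlgebraicClosure K) c * x i :=
    fun i => h (x i) (Finset.mem_image_of_mem _ (Finset.mem_univ i))
  choose a ha using h'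
  have hc' : algebraMap (𝓞 K) (AlgebraicClosure K) c ≠ 0 := by
    rw [Ne, map_eq_zero_iff _ (FaithfulSMul.algebraMap_injective (𝓞 K) (AlgebraicClosure K))]
    exact hc
  refine ⟨a, fun h0 => hx ?_, ?_⟩
  · funext i
    have h1 := ha i
    rw [h0] at h1
    simp only [Pi.zero_apply, map_zero] at h1 ⊢
    rcases mul_eq_zero.mp h1.symm with h | h
    · exact absurd h hc'
    · exact h
  · have e : (fun i => algebraMap (𝓞 (AlgebraicClosure K)) (AlgebraicClosure K) (a i)) =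
        algebraMap (𝓞 K) (AlgebraicClosure K) c • x := by
      funext i
      exact ha i
    rw [e]
    exact par_smul _ _

theorem aa_not_cg {ι : Type} [Fintype ι] (x y : ι → AlgebraicClosure K) (hx : x ≠ 0) (hy : y ≠ 0)
    (h : ¬ Par x y) : AA (K := K) (fun Q => ¬ Cg Q x y) := by
  obtain ⟨a, ha, hxa⟩ := exists_glob x hx
  obtain ⟨b, hb, hyb⟩ := exists_glob y hy
  have hinj := FaithfulSMul.algebraMap_injective (𝓞 (AlgebraicClosure K)) (AlgebraicClosure K)
  have hab : ¬ Par a b := by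
    intro hp
    apply h
    have hA : (fun i => algebraMap (𝓞 (AlgebraicClosure K)) (AlgebraicClosure K) (a i)) ≠ 0 := by
      intro h0; apply ha; funext i
      exact (map_eq_zero_iff _ hinj).mp (congrFun h0 i)
    have hB : (fun i => algebraMap (𝓞 (AlgebraicClosure K)) (AlgebraicClosure K) (b i)) ≠ 0 := by
      intro h0; apply hb; funext i
      exact (map_eq_zero_iff _ hinj).mp (congrFun h0 i)
    refine Par.trans hA hxa (Par.trans hB ?_ hyb.symm)
    intro i j
    rw [← map_mul, ← map_mul, hp i j]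
  refine ((aa_not_min a b hab).and ((aa_vec a ha).and (aa_vec b hb))).mono ?_
  rintro Q hQ ⟨h1, h2, h3⟩ hc
  haveI := hQ.isPrime
  exact h1 (Cg.min hx hy ⟨h2, hxa⟩ ⟨h3, hyb⟩ hc)

/-- an integral vector as a vector of algebraic numbers -/
noncomputable def up {ι : Type} (b : ι → 𝓞 (AlgebraicClosure K)) : ι → AlgebraicClosure K :=
  fun i => algebraMap (𝓞 (AlgebraicClosure K)) (AlgebraicClosure K) (b i)

/-- evaluation of polynomials at integral vectors has bounded denominators -/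
theorem eval_den {ι : Type} (p : MvPolynomial ι (AlgebraicClosure K)) :
    ∃ c : 𝓞 K, c ≠ 0 ∧ ∀ b : ι → 𝓞 (AlgebraicClosure K), ∃ α : 𝓞 (AlgebraicClosure K),
      algebraMap (𝓞 (AlgebraicClosure K)) (AlgebraicClosure K) α =
        algebraMap (𝓞 K) (AlgebraicClosure K) c * aeval (up b) p := by
  induction p using MvPolynomial.induction_on with
  | C a =>
    obtain ⟨c, hc, h⟩ := exists_den (K := K) {a}
    obtain ⟨α, hα⟩ := h a (Finset.mem_singleton_self a)
    exact ⟨c, hc, fun b => ⟨α, by rw [hα, aeval_C]; rfl⟩⟩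
  | add p q hp hq =>
    obtain ⟨c, hc, h⟩ := hp
    obtain ⟨c', hc', h'⟩ := hq
    refine ⟨c * c', mul_ne_zero hc hc', fun b => ?_⟩
    obtain ⟨α, hα⟩ := h b
    obtain ⟨β, hβ⟩ := h' b
    refine ⟨algebraMap (𝓞 K) _ c' * α + algebraMap (𝓞 K) _ c * β, ?_⟩
    have e1 : ∀ c : 𝓞 K, algebraMap (𝓞 (AlgebraicClosure K)) (AlgebraicClosure K)
        (algebraMap (𝓞 K) (𝓞 (AlgebraicClosure K)) c) = algebraMap (𝓞 K) (AlgebraicClosure K) c :=
      fun c => rfl
    rw [map_add, map_add, map_mul, map_mul, e1, e1, hα, hβ, map_mul]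
    ring
  | mul_X p i hp =>
    obtain ⟨c, hc, h⟩ := hp
    refine ⟨c, hc, fun b => ?_⟩
    obtain ⟨α, hα⟩ := h b
    refine ⟨α * b i, ?_⟩
    rw [map_mul, hα, map_mul, aeval_X]
    simp only [up]
    ring

/-- a consequence of Nullstellensatz modulo almost all primes -/
theorem null_mod {ι τ : Type} [Fintype τ] (g : τ → MvPolynomial ι (AlgebraicClosure K))
    (f : MvPolynomial ι (AlgebraicClosure K)) (hf : f ∈ (Ideal.span (Set.range g)).radical) :
    AA (fun Q => ∀ b : ι → 𝓞 (AlgebraicClosure K),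
      (∀ t, ∃ β ∈ Q, algebraMap (𝓞 (AlgebraicClosure K)) (AlgebraicClosure K) β =
        aeval (up b) (g t)) →
      ∀ φ : 𝓞 (AlgebraicClosure K),
        algebraMap (𝓞 (AlgebraicClosure K)) (AlgebraicClosure K) φ = aeval (up b) f → φ ∈ Q) := by
  classical
  obtain ⟨M, hM⟩ := hf
  obtain ⟨a, ha⟩ := (Ideal.mem_span_range_iff_exists_fun).mp hM
  have h := fun t => eval_den (K := K) (a t)
  choose c hc h using h
  refine ⟨∏ t, c t, Finset.prod_ne_zero_iff.mpr (fun t _ => hc t), fun Q hQ hcQ b hb φ hφ => ?_⟩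
  have h' := fun t => h t b
  choose α hα using h'
  choose β hβQ hβ using hb
  have key : algebraMap (𝓞 K) (𝓞 (AlgebraicClosure K)) (∏ t, c t) * φ ^ M =
      ∑ t, algebraMap (𝓞 K) (𝓞 (AlgebraicClosure K)) (∏ s ∈ Finset.univ.erase t, c s) *
        (α t * β t) := by
    apply FaithfulSMul.algebraMap_injective (𝓞 (AlgebraicClosure K)) (AlgebraicClosure K)
    have e1 : ∀ c : 𝓞 K, algebraMap (𝓞 (AlgebraicClosure K)) (AlgebraicClosure K)
        (algebraMap (𝓞 K) (𝓞 (AlgebraicClosure K)) c) = algebraMap (𝓞 K) (AlgebraicClosure K) c :=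
      fun c => rfl
    rw [map_mul, map_pow, map_sum, e1, hφ, ← map_pow, ← ha, map_sum, Finset.mul_sum]
    apply Finset.sum_congr rfl
    intro t _
    rw [map_mul, map_mul, e1, map_mul, hα, hβ, ← Finset.mul_prod_erase _ _ (Finset.mem_univ t),
      map_mul]
    ring
  have hmem : algebraMap (𝓞 K) (𝓞 (AlgebraicClosure K)) (∏ t, c t) * φ ^ M ∈ Q := by
    rw [key]
    exact Q.sum_mem (fun t _ => Q.mul_mem_left _ (Q.mul_mem_left _ (hβQ t)))
  rcases hQ.isPrime.mem_or_mem hmem with h | h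
  · exact absurd h hcQ
  · exact hQ.isPrime.mem_of_pow_mem _ h

theorem aeval_coe {ι R : Type} [CommRing R] [Algebra R (𝓞 (AlgebraicClosure K))]
    [Algebra R (AlgebraicClosure K)] [IsScalarTower R (𝓞 (AlgebraicClosure K)) (AlgebraicClosure K)]
    (p : MvPolynomial ι R) (b : ι → 𝓞 (AlgebraicClosure K)) :
    algebraMap (𝓞 (AlgebraicClosure K)) (AlgebraicClosure K) (aeval b p) = aeval (up b) p :=
  comp_aeval_apply _ (IsScalarTower.toAlgHom R (𝓞 (AlgebraicClosure K)) (AlgebraicClosure K)) p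

/-- good reduction at almost all primes -/
theorem aa_good {ι : Type} [Fintype ι] {G : ι → MvPolynomial ι (𝓞 K)}
    (h0 : ∀ x : ι → AlgebraicClosure K, ev G x = 0 → x = 0) : AA (K := K) (fun Q => Good G Q) := by
  classical
  let GA : ι → MvPolynomial ι (AlgebraicClosure K) :=
    fun i => MvPolynomial.map (algebraMap (𝓞 K) (AlgebraicClosure K)) (G i)
  have hGA : ∀ x : ι → AlgebraicClosure K, ev GA x = ev G x := by
    intro x
    funext i
    exact aeval_map_algebraMap _ _ _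
  have h : ∀ i, AA (fun Q => ∀ b : ι → 𝓞 (AlgebraicClosure K),
      (∀ t, ∃ β ∈ Q, algebraMap (𝓞 (AlgebraicClosure K)) (AlgebraicClosure K) β =
        aeval (up b) (GA t)) →
      ∀ φ : 𝓞 (AlgebraicClosure K),
        algebraMap (𝓞 (AlgebraicClosure K)) (AlgebraicClosure K) φ =
          aeval (up b) (X i : MvPolynomial ι (AlgebraicClosure K)) → φ ∈ Q) := by
    intro i
    apply null_mod
    obtain ⟨M0, hM0⟩ := pow_mem_span GA (fun x hx => h0 x (by rw [← hGA]; exact hx))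
    exact ⟨M0, hM0 M0 le_rfl i⟩
  refine (AA.all h).mono ?_
  intro Q hQ h b hb i
  apply h i b
  · intro t
    refine ⟨ev G b t, hb t, ?_⟩
    have h1 : aeval (up b) (GA t) = ev G (up b) t := congrFun (hGA _) t
    rw [h1]
    exact aeval_coe _ _
  · rw [aeval_X]; rfl

end aa

end Pool.Agent.H423.OA
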