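import Mathlib

/-! Points of projective space as nonzero vectors, maps given by forms, finiteness of fibres. -/

set_option autoImplicit false

namespace Pool.Agent.H423.OA

open MvPolynomial

/-- two vectors are proportional: all `2 × 2` minors vanish -/
def Par {ι R : Type} [CommRing R] (x y : ι → R) : Prop := ∀ i j, x i * y j = x j * y i

/-- the map given by the polynomials `F i` -/
noncomputable def ev {ι R S : Type} [CommRing R] [CommRing S] [Algebra R S]
    (F : ι → MvPolynomial ι R) (x : ι → S) : ι → S := fun i => aeval x (F i)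

section Par
variable {ι L : Type} [Field L]

theorem Par.symm {R : Type} [CommRing R] {x y : ι → R} (h : Par x y) : Par y x := by
  intro i j
  have := h j i
  rw [mul_comm (y i), mul_comm (y j)]
  exact this

theorem Par.refl {R : Type} [CommRing R] (x : ι → R) : Par x x := fun i j => mul_comm _ _

theorem par_iff {x y : ι → L} (hx : x ≠ 0) (hy : y ≠ 0) :
    Par x y ↔ ∃ t : L, t ≠ 0 ∧ y = t • x := by
  constructor
  · intro h
    obtain ⟨i, hi⟩ := Function.ne_iff.mp hx
    simp only [Pi.zero_apply] at hi
    refine ⟨y i / x i, ?_, ?_⟩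
    · intro h0
      apply hy
      have hyi : y i = 0 := by
        rcases div_eq_zero_iff.mp h0 with h | h
        · exact h
        · exact absurd h hi
      funext j
      have := h i j
      rw [hyi, mul_zero] at this
      rcases mul_eq_zero.mp this with h | h
      · exact absurd h hi
      · exact h
    · funext j
      simp only [Pi.smul_apply, smul_eq_mul]
      rw [div_mul_eq_mul_div, eq_div_iff hi, mul_comm, h i j, mul_comm]
  · rintro ⟨t, -, rfl⟩ i j
    simp only [Pi.smul_apply, smul_eq_mul]
    ring

theorem Par.trans {x y z : ι → L} (hy : y ≠ 0) (h1 : Par x y) (h2 : Par y z) : Par x z := by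
  obtain ⟨i, hi⟩ := Function.ne_iff.mp hy
  simp only [Pi.zero_apply] at hi
  intro j k
  -- x j y i = x i y j ; y i z k = y k z i
  have e1 := h1 j i
  have e2 := h1 k i
  have e3 := h2 i k
  have e4 := h2 i j
  apply mul_left_cancel₀ hi
  calc y i * (x j * z k) = (x j * y i) * z k := by ring
    _ = (x i * y j) * z k := by rw [e1]
    _ = x i * (y j * z k) := by ring
    _ = x i * (y k * z j) := by rw [h2 j k]
    _ = (x i * y k) * z j := by ring
    _ = (x k * y i) * z j := by rw [e2]
    _ = y i * (x k * z j) := by ring

end Par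

section ev

variable {ι R S : Type} [CommRing R] [CommRing S] [Algebra R S]

theorem aeval_smul {p : MvPolynomial ι R} {d : ℕ} (hp : p.IsHomogeneous d) (t : S) (x : ι → S) :
    aeval (t • x) p = t ^ d * aeval x p := by
  rw [aeval_def, aeval_def, eval₂_eq, eval₂_eq, Finset.mul_sum]
  apply Finset.sum_congr rfl
  intro m hm
  have hd : m.degree = d := by
    have := hp (mem_support_iff.mp hm)
    rw [← this]
    exact (Finsupp.degree_eq_weight_one (R := ℕ) ▸ rfl)
  rw [← mul_assoc, mul_comm (t ^ d), mul_assoc]
  congr 1
  simp only [Pi.smul_apply, smul_eq_mul, mul_pow]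
  rw [Finset.prod_mul_distrib, Finset.prod_pow_eq_pow_sum, ← hd]
  rfl

theorem ev_smul {F : ι → MvPolynomial ι R} {d : ℕ} (hF : ∀ i, (F i).IsHomogeneous d) (t : S)
    (x : ι → S) : ev F (t • x) = t ^ d • ev F x := by
  funext i
  simp only [ev, Pi.smul_apply, smul_eq_mul]
  exact aeval_smul (hF i) t x

end ev

end Pool.Agent.H423.OA
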