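import Pool.Agent.H423.OA.Fib
import Pool.Graph.R_seed8.W352.ChAbs.Frob

/-! Integral representatives of points at a prime, and congruence of points. -/

set_option autoImplicit false
set_option linter.all false

namespace Pool.Agent.H423.OA

open MvPolynomial NumberField IsDedekindDomain
open Pool.Agent.W401.Cheb

/-- `a` is a vector of integral homogeneous coordinates of the point `x`, not all in `P` -/
def Rep {ι R L : Type} [CommRing R] [Field L] [Algebra R L] (P : Ideal R) (x : ι → L)
    (a : ι → R) : Prop :=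
  (∃ i, a i ∉ P) ∧ Par x (fun i => algebraMap R L (a i))

/-- all `2 × 2` minors of `a, b` are in `P` -/
def Min {ι R : Type} [CommRing R] (P : Ideal R) (a b : ι → R) : Prop :=
  ∀ i j, a i * b j - a j * b i ∈ P

/-- the reductions of the points `x` and `y` modulo `P` coincide -/
def Cg {ι R L : Type} [CommRing R] [Field L] [Algebra R L] (P : Ideal R) (x y : ι → L) : Prop :=
  ∃ a b : ι → R, Rep P x a ∧ Rep P y b ∧ Min P a b

section minors
variable {ι R : Type} [CommRing R]

theorem Min.symm {P : Ideal R} {a b : ι → R} (h : Min P a b) : Min P b a := by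
  intro i j
  have := P.neg_mem (h i j)
  convert this using 1
  ring

theorem Par.min {P : Ideal R} {a b : ι → R} (h : Par a b) : Min P a b := by
  intro i j
  rw [h i j, sub_self]; exact P.zero_mem

theorem Min.trans {P : Ideal R} [hP : P.IsPrime] {a b c : ι → R} (hb : ∃ i, b i ∉ P)
    (h1 : Min P a b) (h2 : Min P b c) : Min P a c := by
  obtain ⟨k, hk⟩ := hb
  intro i j
  have e : b k * (a i * c j - a j * c i) =
      a i * (b k * c j - b j * c k) - a j * (b k * c i - b i * c k)
      + c k * (a i * b j - a j * b i) := by ring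
  have : b k * (a i * c j - a j * c i) ∈ P := by
    rw [e]
    exact P.add_mem (P.sub_mem (P.mul_mem_left _ (h2 k j)) (P.mul_mem_left _ (h2 k i)))
      (P.mul_mem_left _ (h1 i j))
  rcases hP.mem_or_mem this with h | h
  · exact absurd h hk
  · exact h

end minors

section rep
variable {ι R L : Type} [CommRing R] [Field L] [Algebra R L] [FaithfulSMul R L]

theorem Rep.ne_zero [IsDomain R] {P : Ideal R} {x : ι → L} {a : ι → R} (h : Rep P x a) :
    (fun i => algebraMap R L (a i)) ≠ 0 := by
  obtain ⟨⟨i, hi⟩, -⟩ := h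
  intro h0
  apply hi
  have := congrFun h0 i
  simp only [Pi.zero_apply] at this
  rw [(map_eq_zero_iff _ (FaithfulSMul.algebraMap_injective R L))] at this
  rw [this]; exact P.zero_mem

theorem par_of_map {a b : ι → R}
    (h : Par (fun i => algebraMap R L (a i)) (fun i => algebraMap R L (b i))) : Par a b := by
  intro i j
  apply FaithfulSMul.algebraMap_injective R L
  rw [map_mul, map_mul]
  exact h i j

theorem Rep.par {P : Ideal R} {x y : ι → L} {a b : ι → R} (hx : x ≠ 0) (hy : y ≠ 0)
    (ha : Rep P x a) (hb : Rep P y b) (h : Par x y) : Par a b := by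
  apply par_of_map (L := L)
  exact Par.trans hx ha.2.symm (Par.trans hy h hb.2)

/-- congruence can be tested with any representatives -/
theorem Cg.min [IsDomain R] {P : Ideal R} [P.IsPrime] {x y : ι → L} {a b : ι → R} (hx : x ≠ 0)
    (hy : y ≠ 0) (ha : Rep P x a) (hb : Rep P y b) (h : Cg P x y) : Min P a b := by
  obtain ⟨a', b', ha', hb', hm⟩ := h
  have h1 : Par a a' := Rep.par hx hx ha ha' (Par.refl x)
  have h2 : Par b' b := Rep.par hy hy hb' hb (Par.refl y)
  exact Min.trans ha'.1 h1.min (Min.trans hb'.1 hm h2.min)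

theorem Cg.symm {P : Ideal R} {x y : ι → L} (h : Cg P x y) : Cg P y x := by
  obtain ⟨a, b, ha, hb, hm⟩ := h
  exact ⟨b, a, hb, ha, hm.symm⟩

theorem Cg.trans [IsDomain R] {P : Ideal R} [P.IsPrime] {x y z : ι → L} (hy : y ≠ 0)
    (h1 : Cg P x y) (h2 : Cg P y z) : Cg P x z := by
  obtain ⟨a, b, ha, hb, hm⟩ := h1
  obtain ⟨b', c, hb', hc, hm'⟩ := h2
  have h3 : Par b b' := Rep.par hy hy hb hb' (Par.refl y)
  exact ⟨a, c, ha, hc, Min.trans hb.1 hm (Min.trans hb'.1 h3.min hm')⟩

end rep

section exist

variable {ι R L : Type} [Fintype ι] [CommRing R] [IsDomain R] [Field L] [Algebra R L]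
  [FaithfulSMul R L]

/-- `P` is a prime at which the localisation is a valuation ring of `L` -/
def VP (P : Ideal R) (L : Type) [Field L] [Algebra R L] : Prop :=
  ∀ x : L, ∃ n d : R, d ∉ P ∧
    (x * algebraMap R L d = algebraMap R L n ∨ x * algebraMap R L n = algebraMap R L d)

theorem exists_max {ι : Type} [Fintype ι] [Nonempty ι] (r : ι → ι → Prop) (ht : ∀ i j, r i j ∨ r j i)
    (htr : ∀ i j k, r i j → r j k → r i k) : ∃ j, ∀ i, r i j := by
  classical
  have : ∀ s : Finset ι, s.Nonempty → ∃ j, ∀ i ∈ s, r i j := by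
    intro s hs
    induction hs using Finset.Nonempty.cons_induction with
    | singleton a => exact ⟨a, fun i hi => by
        rw [Finset.mem_singleton] at hi; subst hi; exact (ht i i).elim id id⟩
    | cons a s ha hs ih =>
      obtain ⟨j, hj⟩ := ih
      rcases ht a j with h | h
      · refine ⟨j, fun i hi => ?_⟩
        rw [Finset.mem_cons] at hi
        rcases hi with rfl | hi
        · exact h
        · exact hj i hi
      · refine ⟨a, fun i hi => ?_⟩
        rw [Finset.mem_cons] at hi
        rcases hi with rfl | hi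
        · exact (ht i i).elim id id
        · exact htr _ _ _ (hj i hi) h
  obtain ⟨j, hj⟩ := this Finset.univ Finset.univ_nonempty
  exact ⟨j, fun i => hj i (Finset.mem_univ i)⟩

theorem exists_rep (P : Ideal R) [hP : P.IsPrime] (hV : VP P L) (x : ι → L) (hx : x ≠ 0) :
    ∃ a : ι → R, Rep P x a := by
  classical
  have hinj := FaithfulSMul.algebraMap_injective R L
  obtain ⟨i0, hi0⟩ := Function.ne_iff.mp hx
  haveI : Nonempty ι := ⟨i0⟩
  let r : ι → ι → Prop := fun i j => ∃ n d : R, d ∉ P ∧
    x i * algebraMap R L d = x j * algebraMap R L n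
  have h1 : (1 : R) ∉ P := fun h => hP.ne_top ((Ideal.eq_top_iff_one P).mpr h)
  obtain ⟨j, hj⟩ := exists_max r (by
    intro i j
    by_cases hj : x j = 0
    · right
      exact ⟨0, 1, h1, by simp [hj]⟩
    · obtain ⟨n, d, hd, h | h⟩ := hV (x i / x j)
      · left
        refine ⟨n, d, hd, ?_⟩
        rw [div_mul_eq_mul_div, div_eq_iff hj] at h
        rw [h, mul_comm]
      · right
        refine ⟨n, d, hd, ?_⟩
        rw [div_mul_eq_mul_div, div_eq_iff hj] at h
        rw [h, mul_comm]) (by
    rintro i j k ⟨n, d, hd, h⟩ ⟨n', d', hd', h'⟩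
    refine ⟨n * n', d * d', fun hc => ?_, ?_⟩
    · rcases hP.mem_or_mem hc with h | h
      · exact hd h
      · exact hd' h
    · rw [map_mul, map_mul]
      calc x i * (algebraMap R L d * algebraMap R L d')
          = (x i * algebraMap R L d) * algebraMap R L d' := by ring
        _ = (x j * algebraMap R L d') * algebraMap R L n := by rw [h]; ring
        _ = _ := by rw [h']; ring)
  choose n d hd hnd using hj
  have hd0 : ∀ i, algebraMap R L (d i) ≠ 0 := by
    intro i h
    rw [map_eq_zero_iff _ hinj] at h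
    exact hd i (h ▸ P.zero_mem)
  have hxj : x j ≠ 0 := by
    intro h
    have := hnd i0
    rw [h, zero_mul] at this
    rcases mul_eq_zero.mp this with h | h
    · exact hi0 h
    · exact hd0 i0 h
  set D : R := ∏ k, d k with hD
  refine ⟨fun i => n i * ∏ k ∈ Finset.univ.erase i, d k, ⟨j, ?_⟩, ?_⟩
  · have hnj : n j = d j := by
      apply hinj
      have := hnd j
      exact (mul_left_cancel₀ hxj this).symm
    show n j * _ ∉ P
    rw [hnj, Finset.mul_prod_erase _ _ (Finset.mem_univ j)]
    intro h
    rw [hP.prod_mem_iff] at h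
    obtain ⟨k, -, hk⟩ := h
    exact hd k hk
  · have key : ∀ i, x j * algebraMap R L (n i * ∏ k ∈ Finset.univ.erase i, d k) =
        x i * algebraMap R L D := by
      intro i
      rw [map_mul, ← mul_assoc, ← hnd i, mul_assoc, ← map_mul,
        Finset.mul_prod_erase _ _ (Finset.mem_univ i)]
    intro i k
    apply mul_left_cancel₀ hxj
    have h1 := key i
    have h2 := key k
    calc x j * (x i * algebraMap R L (n k * ∏ k' ∈ Finset.univ.erase k, d k'))
        = x i * (x j * algebraMap R L (n k * ∏ k' ∈ Finset.univ.erase k, d k')) := by ring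
      _ = x i * (x k * algebraMap R L D) := by rw [h2]
      _ = x k * (x i * algebraMap R L D) := by ring
      _ = x k * (x j * algebraMap R L (n i * ∏ k' ∈ Finset.univ.erase i, d k')) := by rw [h1]
      _ = _ := by ring

end exist

section nf

variable {K : Type} [Field K] [NumberField K]

theorem vp_base (v : HeightOneSpectrum (𝓞 K)) : VP v.asIdeal K := by
  intro x
  obtain ⟨n, d, h⟩ := HeightOneSpectrum.exists_primeCompl_mul_eq_or_mul_eq v x
  exact ⟨n, d, d.2, h⟩

theorem vp_closure (v : HeightOneSpectrum (𝓞 K)) (Q : Ideal (𝓞 (AlgebraicClosure K)))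
    (hQ : Q.IsPrime) (hQv : Q.comap (algebraMap (𝓞 K) (𝓞 (AlgebraicClosure K))) = v.asIdeal) :
    VP Q (AlgebraicClosure K) := by
  intro x
  let L : IntermediateField K (AlgebraicClosure K) := IntermediateField.adjoin K {x}
  haveI : FiniteDimensional K L :=
    IntermediateField.adjoin.finiteDimensional (Algebra.IsIntegral.isIntegral x)
  haveI : NumberField L := NumberField.of_module_finite K L
  let P : Ideal (𝓞 L) := Q.comap (algebraMap (𝓞 L) (𝓞 (AlgebraicClosure K)))
  have hP : P.IsPrime := Ideal.comap_isPrime _ _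
  have hne : P ≠ ⊥ := by
    obtain ⟨c, hc, hc0⟩ := Submodule.exists_mem_ne_zero_of_ne_bot v.ne_bot
    intro h
    have hcP : algebraMap (𝓞 K) (𝓞 L) c ∈ P := by
      rw [Ideal.mem_comap, ← IsScalarTower.algebraMap_apply (𝓞 K) (𝓞 L) (𝓞 (AlgebraicClosure K))]
      rw [← hQv] at hc
      exact hc
    rw [h, Ideal.mem_bot] at hcP
    exact hc0 ((map_eq_zero_iff _ (FaithfulSMul.algebraMap_injective (𝓞 K) (𝓞 L))).mp hcP)
  let w : HeightOneSpectrum (𝓞 L) := ⟨P, hP, hne⟩
  obtain ⟨n, d, hd, h⟩ := vp_base w (⟨x, IntermediateField.mem_adjoin_simple_self K x⟩ : L)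
  refine ⟨algebraMap (𝓞 L) (𝓞 (AlgebraicClosure K)) n,
    algebraMap (𝓞 L) (𝓞 (AlgebraicClosure K)) d, hd, ?_⟩
  rcases h with h | h
  · left
    exact congrArg (algebraMap L (AlgebraicClosure K)) h
  · right
    exact congrArg (algebraMap L (AlgebraicClosure K)) h

end nf

end Pool.Agent.H423.OA
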